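import Pool.Agent.T2h83.TH.QThin

/-!
Project TH (helper83): vectors of values of quadratic polynomials.
-/

set_option autoImplicit false

namespace Pool.Agent.T2h83.TH

open Finset

/-- translations do not increase the number of solutions -/
lemma energy_image' (t : ℕ) (S : Finset ℕ) (f : ℕ → ℕ) (u e D : ℕ) (hu : 1 ≤ u) (hf : ∀ s ∈ S, f s + D = u * s + e) :
    energy t (S.image f) ≤ energy t S := by
  classical
  unfold energy
  have h1 : ((Fintype.piFinset (fun _ : Fin t => S.image f)) ×ˢ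
      (Fintype.piFinset (fun _ : Fin t => S.image f))).filter (fun x => ∑ i, x.1 i = ∑ i, x.2 i) ⊆
      (((Fintype.piFinset (fun _ : Fin t => S)) ×ˢ (Fintype.piFinset (fun _ : Fin t => S))).filter
        (fun x => ∑ i, x.1 i = ∑ i, x.2 i)).image (fun x => ((fun i => f (x.1 i)), (fun i => f (x.2 i)))) := by
    rintro ⟨v, w⟩ hx
    rw [mem_filter, mem_product, Fintype.mem_piFinset, Fintype.mem_piFinset] at hx
    obtain ⟨⟨h2, h3⟩, h4⟩ := hx
    simp only [mem_image] at h2 h3 h4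
    choose g hg1 hg2 using h2
    choose g' hg1' hg2' using h3
    rw [mem_image]
    refine ⟨(g, g'), ?_, ?_⟩
    · rw [mem_filter, mem_product, Fintype.mem_piFinset, Fintype.mem_piFinset]
      refine ⟨⟨hg1, hg1'⟩, ?_⟩
      have h5 : ∑ i, (f (g i) + D) = ∑ i, (f (g' i) + D) := by
        rw [sum_add_distrib, sum_add_distrib]
        simp only [hg2, hg2']
        rw [h4]
      have h6 : ∑ i, (u * g i + e) = ∑ i, (u * g' i + e) := by
        rw [← sum_congr rfl (fun i _ => hf (g i) (hg1 i)), ← sum_congr rfl (fun i _ => hf (g' i) (hg1' i))]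
        exact h5
      simp only [sum_add_distrib, ← mul_sum] at h6
      simp only
      exact Nat.eq_of_mul_eq_mul_left (by omega : 0 < u) (by omega)
    · rw [Prod.mk.injEq]
      exact ⟨funext hg2, funext hg2'⟩
  exact (card_le_card h1).trans card_image_le

lemma card_image_sub (S : Finset ℕ) (D : ℕ) (hS : ∀ s ∈ S, D ≤ s + 1) : (S.image (fun s => s + 1 - D)).card = S.card := by
  apply card_image_of_injOn
  intro a ha b hb hab
  have h1 := hS a ha
  have h2 := hS b hb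
  simp only at hab
  omega

/-- translations to the left of thin sets -/
lemma thin_sub {t T N q : ℕ} {S : Finset ℕ} (D : ℕ) (hS : ∀ s ∈ S, D ≤ s + 1 ∧ s + 1 - D ≤ N)
    (hcls : ∃ r : ℕ, ∀ s ∈ S, s % q = r % q)
    (hfew : (energy t S : ℝ) ≤ (S.card : ℝ) ^ (2 * t) * q * Real.log N ^ T / N) :
    Thin t T N q (S.image (fun s => s + 1 - D)) := by
  refine ⟨fun s hs => ?_, ?_, ?_⟩
  · rw [mem_image] at hs
    obtain ⟨s', hs', rfl⟩ := hs
    exact (hS s' hs').2
  · rcases S.eq_empty_or_nonempty with h0 | ⟨s₀, hs₀⟩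
    · subst h0
      exact ⟨0, fun s hs => by simp at hs⟩
    obtain ⟨r, hr⟩ := hcls
    refine ⟨s₀ + 1 - D, fun s hs => ?_⟩
    rw [mem_image] at hs
    obtain ⟨s', hs', rfl⟩ := hs
    have h1 : s' ≡ s₀ [MOD q] := (hr s' hs').trans (hr s₀ hs₀).symm
    have h2 : s' + 1 - D + D ≡ s₀ + 1 - D + D [MOD q] := by
      rw [Nat.sub_add_cancel (hS s' hs').1, Nat.sub_add_cancel (hS s₀ hs₀).1]
      exact h1.add_right 1
    exact Nat.ModEq.add_right_cancel' D h2
  · rw [card_image_sub S D (fun s hs => (hS s hs).1)]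
    refine le_trans ?_ hfew
    exact_mod_cast energy_image' t S _ 1 1 D le_rfl (fun s hs => by have := (hS s hs).1; omega)

open Classical in
/-- from thin sets to the values of quadratic polynomials -/
lemma quad_vec (T : ℕ) : ∃ N₀ : ℕ, ∀ N : ℕ, N₀ ≤ N → ∀ (K q lo d : ℕ) (X : ℝ) (Pred : (Fin K → ℕ) → Prop), 1 ≤ q →
    (∀ S : Fin K → Finset ℕ, (∀ i, (∀ s ∈ S i, lo ≤ s ∧ s + d ≤ N) ∧ (∃ r : ℕ, ∀ s ∈ S i, s % q = r % q) ∧
      (energy 3 (S i) : ℝ) ≤ ((S i).card : ℝ) ^ (2 * 3) * q * Real.log N ^ (2 * T + 10) / N) →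
      (((Fintype.piFinset S).filter (fun s => ¬ Pred s)).card : ℝ) ≤ (∏ i, ((S i).card : ℝ)) / X) →
    ∀ a b c ρ V : Fin K → ℕ, (∀ i, 1 ≤ a i) → (∀ i, 1 ≤ V i) →
      (∀ i, ∀ v < V i, lo ≤ a i * (ρ i + q * v) ^ 2 + b i * (ρ i + q * v) + c i ∧
        a i * (ρ i + q * v) ^ 2 + b i * (ρ i + q * v) + c i + d ≤ N) →
      (∀ i, (N : ℝ) ≤ (q * V i : ℝ) ^ 2 * Real.log N ^ T) → (∀ i, (q : ℝ) ≤ V i * Real.log N ^ T) →
      (∀ i, (Nat.gcd (2 * a i * ρ i + b i) q : ℝ) ≤ Real.log N ^ T) →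
      (((Fintype.piFinset (fun i => range (V i))).filter
        (fun v => ¬ Pred (fun i => a i * (ρ i + q * v i) ^ 2 + b i * (ρ i + q * v i) + c i))).card : ℝ) ≤
        (∏ i, (V i : ℝ)) / X := by
  obtain ⟨N₁, h1⟩ := quad_thin T
  refine ⟨N₁, fun N hN K q lo d X Pred hq H a b c ρ V ha hV hle hNV hqV hg => ?_⟩
  obtain ⟨S, hS⟩ : ∃ S : Fin K → Finset ℕ, S = fun i => (range (V i)).image
    (fun v => a i * (ρ i + q * v) ^ 2 + b i * (ρ i + q * v) + c i) := ⟨_, rfl⟩
  have hcard : ∀ i, (S i).card = V i := by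
    intro i
    rw [hS]
    simp only
    rw [card_image_of_injOn (quad_inj (ha i) hq), card_range]
  have h2 := H S (fun i => by
    obtain ⟨h3, h4⟩ := h1 N hN (a i) (b i) (c i) q (ρ i) (V i) (ha i) hq (hV i)
      (fun v hv => by have := (hle i v hv).2; omega) (hNV i) (hqV i) (hg i)
    rw [hS]
    refine ⟨fun s hs => ?_, h3, h4⟩
    simp only [mem_image] at hs
    obtain ⟨v, hv, rfl⟩ := hs
    exact hle i v (mem_range.1 hv))
  simp only [hcard] at h2
  refine le_trans ?_ h2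
  have h6 : ((Fintype.piFinset (fun i => range (V i))).filter
        (fun v => ¬ Pred (fun i => a i * (ρ i + q * v i) ^ 2 + b i * (ρ i + q * v i) + c i))).card ≤
      ((Fintype.piFinset S).filter (fun s => ¬ Pred s)).card := by
    apply card_le_card_of_injOn (fun v i => a i * (ρ i + q * v i) ^ 2 + b i * (ρ i + q * v i) + c i)
    · intro v hv
      rw [mem_coe, mem_filter, Fintype.mem_piFinset] at hv
      rw [mem_coe, mem_filter, Fintype.mem_piFinset]
      refine ⟨fun i => ?_, hv.2⟩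
      rw [hS]
      exact mem_image.2 ⟨v i, hv.1 i, rfl⟩
    · intro v hv w hw h
      rw [mem_coe, mem_filter, Fintype.mem_piFinset] at hv hw
      funext i
      exact quad_inj (V := V i) (ha i) hq (hv.1 i) (hw.1 i) (congrFun h i)
  exact_mod_cast h6

end Pool.Agent.T2h83.TH
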