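import Pool.Agent.T2h83.TH.Quad

/-!
Project TH (helper83): the values of a quadratic polynomial form thin sets; translations.
-/

set_option autoImplicit false

namespace Pool.Agent.T2h83.TH

open Finset
open Pool.Agent.H373R2.T7 (ev_L')

/-- translations and dilations do not increase the number of solutions -/
lemma energy_image (t : ℕ) (S : Finset ℕ) (u d : ℕ) (hu : 1 ≤ u) : energy t (S.image (fun s => u * s + d)) ≤ energy t S := by
  classical
  unfold energy
  have h1 : ((Fintype.piFinset (fun _ : Fin t => S.image (fun s => u * s + d))) ×ˢ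
      (Fintype.piFinset (fun _ : Fin t => S.image (fun s => u * s + d)))).filter (fun x => ∑ i, x.1 i = ∑ i, x.2 i) ⊆
      (((Fintype.piFinset (fun _ : Fin t => S)) ×ˢ (Fintype.piFinset (fun _ : Fin t => S))).filter
        (fun x => ∑ i, x.1 i = ∑ i, x.2 i)).image (fun x => ((fun i => u * x.1 i + d), (fun i => u * x.2 i + d))) := by
    rintro ⟨v, w⟩ hx
    rw [mem_filter, mem_product, Fintype.mem_piFinset, Fintype.mem_piFinset] at hx
    obtain ⟨⟨h2, h3⟩, h4⟩ := hx
    simp only [mem_image] at h2 h3 h4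
    choose f hf1 hf2 using h2
    choose f' hf1' hf2' using h3
    rw [mem_image]
    refine ⟨(f, f'), ?_, ?_⟩
    · rw [mem_filter, mem_product, Fintype.mem_piFinset, Fintype.mem_piFinset]
      refine ⟨⟨hf1, hf1'⟩, ?_⟩
      simp only [← hf2, ← hf2', sum_add_distrib, ← mul_sum] at h4
      simp only
      exact Nat.eq_of_mul_eq_mul_left (by omega : 0 < u) (by omega)
    · rw [Prod.mk.injEq]
      exact ⟨funext hf2, funext hf2'⟩
  exact (card_le_card h1).trans card_image_le

lemma card_image_aff (S : Finset ℕ) (u d : ℕ) (hu : 1 ≤ u) : (S.image (fun s => u * s + d)).card = S.card := by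
  apply card_image_of_injective
  intro a b hab
  simp only at hab
  exact Nat.eq_of_mul_eq_mul_left (by omega : 0 < u) (by omega)

/-- translations and dilations of thin sets -/
lemma thin_image {t T N q : ℕ} {S : Finset ℕ} (u d : ℕ) (hu : 1 ≤ u) (hS : ∀ s ∈ S, u * s + d ≤ N)
    (hcls : ∃ r : ℕ, ∀ s ∈ S, s % q = r % q)
    (hfew : (energy t S : ℝ) ≤ (S.card : ℝ) ^ (2 * t) * q * Real.log N ^ T / N) :
    Thin t T N q (S.image (fun s => u * s + d)) := by
  refine ⟨fun s hs => ?_, ?_, ?_⟩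
  · rw [mem_image] at hs
    obtain ⟨s', hs', rfl⟩ := hs
    exact hS s' hs'
  · obtain ⟨r, hr⟩ := hcls
    refine ⟨u * r + d, fun s hs => ?_⟩
    rw [mem_image] at hs
    obtain ⟨s', hs', rfl⟩ := hs
    have h1 : s' ≡ r [MOD q] := hr s' hs'
    exact (h1.mul_left u).add_right d
  · rw [card_image_aff S u d hu]
    refine le_trans ?_ hfew
    exact_mod_cast energy_image t S u d hu

/-- the number of the elements of a thin set which do not satisfy a property -/
lemma quad_inj {a b c q ρ V : ℕ} (ha : 1 ≤ a) (hq : 1 ≤ q) :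
    Set.InjOn (fun v => a * (ρ + q * v) ^ 2 + b * (ρ + q * v) + c) (range V : Finset ℕ) := by
  intro v _ w _ h
  simp only at h
  rcases lt_trichotomy v w with h1 | h1 | h1
  · exfalso
    have h2 : ρ + q * v < ρ + q * w := by
      have := Nat.mul_lt_mul_of_pos_left h1 (by omega : 0 < q)
      omega
    have h3 : (ρ + q * v) ^ 2 < (ρ + q * w) ^ 2 := Nat.pow_lt_pow_left h2 (by norm_num)
    have h4 := Nat.mul_lt_mul_of_pos_left h3 (by omega : 0 < a)
    have h5 := Nat.mul_le_mul_left b h2.le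
    omega
  · exact h1
  · exfalso
    have h2 : ρ + q * w < ρ + q * v := by
      have := Nat.mul_lt_mul_of_pos_left h1 (by omega : 0 < q)
      omega
    have h3 : (ρ + q * w) ^ 2 < (ρ + q * v) ^ 2 := Nat.pow_lt_pow_left h2 (by norm_num)
    have h4 := Nat.mul_lt_mul_of_pos_left h3 (by omega : 0 < a)
    have h5 := Nat.mul_le_mul_left b h2.le
    omega

/-- **the values of a quadratic polynomial in a residue class** form a thin set -/
lemma quad_thin (T : ℕ) : ∃ N₀ : ℕ, ∀ N : ℕ, N₀ ≤ N → ∀ a b c q ρ V : ℕ, 1 ≤ a → 1 ≤ q → 1 ≤ V →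
    (∀ v < V, a * (ρ + q * v) ^ 2 + b * (ρ + q * v) + c ≤ N) → (N : ℝ) ≤ (q * V : ℝ) ^ 2 * Real.log N ^ T →
    (q : ℝ) ≤ V * Real.log N ^ T → (Nat.gcd (2 * a * ρ + b) q : ℝ) ≤ Real.log N ^ T →
    (∃ r : ℕ, ∀ s ∈ (range V).image (fun v => a * (ρ + q * v) ^ 2 + b * (ρ + q * v) + c), s % q = r % q) ∧
    (energy 3 ((range V).image (fun v => a * (ρ + q * v) ^ 2 + b * (ρ + q * v) + c)) : ℝ) ≤
      (((range V).image (fun v => a * (ρ + q * v) ^ 2 + b * (ρ + q * v) + c)).card : ℝ) ^ (2 * 3) * q *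
        Real.log N ^ (2 * T + 10) / N := by
  obtain ⟨N₁, h1⟩ := ev_L' 100
  refine ⟨N₁ + 3, fun N hN a b c q ρ V ha hq hV hle hN2 hqV hg => ⟨?_, ?_⟩⟩
  · refine ⟨a * ρ ^ 2 + b * ρ + c, fun s hs => ?_⟩
    rw [mem_image] at hs
    obtain ⟨v, -, rfl⟩ := hs
    have h2 : ρ + q * v ≡ ρ [MOD q] := by
      show (ρ + q * v) % q = ρ % q
      rw [Nat.add_mul_mod_self_left]
    exact (((h2.pow 2).mul_left a).add (h2.mul_left b)).add_right c
  · have hL := h1 N (by omega)
    have hN0 : (0 : ℝ) < N := by exact_mod_cast (by omega : 0 < N)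
    have hq0 : (0 : ℝ) < q := by exact_mod_cast hq
    have hV0 : (0 : ℝ) < V := by exact_mod_cast hV
    rw [card_image_of_injOn (quad_inj ha hq), card_range]
    have hE := energy_quad (a := a) (b := b) (c := c) (q := q) (ρ := ρ) (V := V) (g := Nat.gcd (2 * a * ρ + b) q) ha hq hV le_rfl
    refine hE.trans ?_
    -- the size of V
    have hVN : (V : ℝ) ≤ 2 * N := by
      rcases Nat.lt_or_ge V 2 with h | h
      · have : V = 1 := by omega
        rw [this]
        have : (1 : ℝ) ≤ N := by exact_mod_cast (by omega : 1 ≤ N)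
        push_cast
        linarith
      · have e1 := hle (V - 1) (by omega)
        have e2 : V - 1 ≤ a * (ρ + q * (V - 1)) ^ 2 := by
          have e3 : V - 1 ≤ ρ + q * (V - 1) := by
            have := Nat.le_mul_of_pos_left (V - 1) (by omega : 0 < q)
            omega
          have e4 : ρ + q * (V - 1) ≤ (ρ + q * (V - 1)) ^ 2 := Nat.le_self_pow (by norm_num) _
          have e5 := Nat.le_mul_of_pos_left ((ρ + q * (V - 1)) ^ 2) (by omega : 0 < a)
          omega
        have e6 : V ≤ 2 * N := by omega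
        exact_mod_cast e6
    have hlV : 1 + Real.log V ≤ 2 * Real.log N := by
      have e1 : Real.log V ≤ Real.log (2 * N) := Real.log_le_log hV0 hVN
      rw [Real.log_mul (by norm_num) hN0.ne'] at e1
      have := Real.log_two_lt_d9
      linarith
    have hlV0 : 0 ≤ 1 + Real.log V := by
      have := Real.log_natCast_nonneg V
      linarith
    obtain ⟨L, hLd⟩ : ∃ L, L = Real.log (N : ℝ) := ⟨_, rfl⟩
    rw [← hLd] at hL hN2 hqV hg hlV ⊢
    have hL0 : 0 < L := by linarith
    have hL1 : 1 ≤ L := by linarith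
    have e1 : (6 * V * (Nat.gcd (2 * a * ρ + b) q : ℕ) / q + 1 : ℝ) ≤ 7 * (V * L ^ T / q) := by
      have e2 : (6 * V * (Nat.gcd (2 * a * ρ + b) q : ℕ) / q : ℝ) ≤ 6 * (V * L ^ T / q) := by
        rw [mul_div_assoc', div_le_div_iff_of_pos_right hq0, mul_assoc]
        apply mul_le_mul_of_nonneg_left _ (by norm_num)
        exact mul_le_mul_of_nonneg_left hg hV0.le
      have e3 : (1 : ℝ) ≤ V * L ^ T / q := by rw [_root_.one_le_div hq0]; exact hqV
      linarith
    have e4 : (1 + Real.log V) ^ 6 ≤ 64 * L ^ 6 := by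
      calc (1 + Real.log V) ^ 6 ≤ (2 * L) ^ 6 := pow_le_pow_left₀ hlV0 hlV 6
        _ = 64 * L ^ 6 := by ring
    calc (6 * V * (Nat.gcd (2 * a * ρ + b) q : ℕ) / q + 1 : ℝ) * (44 * (V ^ 3 * (1 + Real.log V) ^ 6))
        ≤ (7 * (V * L ^ T / q)) * (44 * (V ^ 3 * (64 * L ^ 6))) := by gcongr
      _ = 19712 * (V ^ 4 * L ^ (T + 6) / q) := by
          rw [pow_add]
          ring
      _ ≤ L ^ 4 * (V ^ 4 * L ^ (T + 6) / q) := by
          apply mul_le_mul_of_nonneg_right _ (by positivity)
          calc (19712 : ℝ) ≤ 100 ^ 4 := by norm_num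
            _ ≤ L ^ 4 := pow_le_pow_left₀ (by norm_num) hL 4
      _ ≤ (V : ℝ) ^ (2 * 3) * q * L ^ (2 * T + 10) / N := by
          rw [le_div_iff₀ hN0]
          calc L ^ 4 * (V ^ 4 * L ^ (T + 6) / q) * N ≤ L ^ 4 * (V ^ 4 * L ^ (T + 6) / q) * ((q * V) ^ 2 * L ^ T) := by gcongr
            _ = (V : ℝ) ^ (2 * 3) * q * L ^ (2 * T + 10) := by
                have e5 : L ^ (2 * T + 10) = L ^ 4 * L ^ (T + 6) * L ^ T := by
                  rw [← pow_add, ← pow_add]
                  congr 1
                  ring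
                rw [e5]
                field_simp

end Pool.Agent.T2h83.TH
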