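import Pool.Agent.T2h83.AM.Main
import Pool.Agent.T2h83.AM.Mu1
import Pool.Agent.H373R2.T7.BilF
import Pool.Agent.Y872.GJ.Pars

/-!
Project TH (helper83): thin sets of shifts in all the residue classes of almost all moduli. The sum over an arbitrary set
of shifts in one residue class, with few solutions of the equation of equal sums of `t` elements (Parseval and Hoelder).
-/

set_option autoImplicit false

namespace Pool.Agent.T2h83.TH

open Finset
open Pool.Agent.H807R2.Dav (ee norm_ee ee_add ee_zero ee_int ee_add_int)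
open Pool.Agent.T2h83.AM (sm)

/-- the number of the pairs of `t`-tuples of elements of `S` with the same sum -/
def energy (t : ℕ) (S : Finset ℕ) : ℕ :=
  (((Fintype.piFinset (fun _ : Fin t => S)) ×ˢ (Fintype.piFinset (fun _ : Fin t => S))).filter
    (fun x => ∑ i, x.1 i = ∑ i, x.2 i)).card

lemma conj_ee (x : ℝ) : (starRingEnd ℂ) (ee x) = ee (-x) := Pool.Agent.T2h83.AM.conj_ee x

/-- the weights of the variable `n` -/
noncomputable def Asum (c N : ℕ) (g : ℕ → ℂ) (x : ℝ) : ℂ := ∑ n ∈ Icc 1 N, (starRingEnd ℂ) (g n) * ee (((c * n : ℕ) : ℝ) * x)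

/-- the weights of the shift -/
noncomputable def Wsum (S : Finset ℕ) (e : ℕ → ℂ) (x : ℝ) : ℂ := ∑ s ∈ S, (starRingEnd ℂ) (e s) * ee ((s : ℝ) * x)

lemma trip (s1 s2 s3 : Finset ℕ) (a b c : ℕ → ℂ) :
    (∑ m ∈ s1, a m) * ((∑ n ∈ s2, b n) * ∑ s ∈ s3, c s) = ∑ s ∈ s3, ∑ n ∈ s2, ∑ m ∈ s1, a m * (b n * c s) := by
  simp only [← sum_mul, ← mul_sum]

lemma expand {M N c D : ℕ} (hM : M < D) (G g e : ℕ → ℂ) (S : Finset ℕ)
    (hS : ∀ s ∈ S, c * N + s ≤ M) (hc : 1 ≤ c) :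
    ∑ j ∈ range D, sm M G ((j : ℝ) / D) * (starRingEnd ℂ) (Asum c N g ((j : ℝ) / D) * Wsum S e ((j : ℝ) / D)) =
      D * ∑ s ∈ S, e s * ∑ n ∈ Icc 1 N, g n * G (c * n + s) := by
  have hD : 1 ≤ D := by omega
  have hD0 : (0 : ℝ) < D := by exact_mod_cast hD
  have h1 : ∀ j ∈ range D, sm M G ((j : ℝ) / D) *
      (starRingEnd ℂ) (Asum c N g ((j : ℝ) / D) * Wsum S e ((j : ℝ) / D)) =
      ∑ s ∈ S, ∑ n ∈ Icc 1 N, ∑ m ∈ Icc 1 M, (e s * (g n * G m)) *
        ee ((j : ℝ) * ((((m : ℤ) - ((c * n + s : ℕ) : ℤ) : ℤ) : ℝ) / D)) := by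
    intro j _
    unfold sm Asum Wsum
    rw [map_mul, map_sum, map_sum, trip]
    refine sum_congr rfl fun s _ => sum_congr rfl fun n _ => sum_congr rfl fun m _ => ?_
    rw [map_mul, map_mul, Complex.conj_conj, Complex.conj_conj, conj_ee, conj_ee]
    have e1 : (j : ℝ) * ((((m : ℤ) - ((c * n + s : ℕ) : ℤ) : ℤ) : ℝ) / D) =
        (m : ℝ) * ((j : ℝ) / D) + (-(((c * n : ℕ) : ℝ) * ((j : ℝ) / D)) + -((s : ℝ) * ((j : ℝ) / D))) := by
      push_cast
      ring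
    rw [e1, ee_add, ee_add]
    ring
  rw [sum_congr rfl h1, sum_comm, mul_sum]
  refine sum_congr rfl fun s hs => ?_
  rw [sum_comm, mul_sum, mul_sum]
  refine sum_congr rfl fun n hn => ?_
  rw [sum_comm]
  have h2 : ∀ m ∈ Icc 1 M, ∑ j ∈ range D, (e s * (g n * G m)) *
      ee ((j : ℝ) * ((((m : ℤ) - ((c * n + s : ℕ) : ℤ) : ℤ) : ℝ) / D)) =
      if m = c * n + s then D * (e s * (g n * G (c * n + s))) else 0 := by
    intro m hm
    rw [← mul_sum, Pool.Agent.H373R2.T7.orth D hD]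
    rw [mem_Icc] at hm hn
    have h3 := hS s hs
    have h4 : c * n ≤ c * N := Nat.mul_le_mul_left _ hn.2
    by_cases h5 : m = c * n + s
    · rw [if_pos h5, if_pos (by rw [h5]; simp), h5]
      ring
    · rw [if_neg h5, if_neg, mul_zero]
      intro h6
      apply h5
      have h7 : ((m : ℤ) - ((c * n + s : ℕ) : ℤ)) = 0 := by
        apply Int.eq_zero_of_abs_lt_dvd h6
        rw [abs_lt]
        constructor <;> push_cast <;> omega
      have h8 : (m : ℤ) = ((c * n + s : ℕ) : ℤ) := by linarith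
      exact_mod_cast h8
  rw [sum_congr rfl h2, sum_ite_eq' (Icc 1 M) (c * n + s), if_pos]
  rw [mem_Icc] at hn ⊢
  have h3 := hS s hs
  have h4 : c * n ≤ c * N := Nat.mul_le_mul_left _ hn.2
  have h5 : 1 ≤ c * n := Nat.mul_pos (by omega) (by omega)
  omega

/-- shifts of the grid -/
lemma grid_shift (D : ℕ) (hD : 1 ≤ D) (F : ℝ → ℝ) (hF : ∀ x, F (x + 1) = F x) (b : ℕ) :
    ∑ j ∈ range D, F (((j : ℝ) + b) / D) = ∑ j ∈ range D, F ((j : ℝ) / D) := by
  have hD0 : (0 : ℝ) < D := by exact_mod_cast hD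
  induction b with
  | zero => simp
  | succ b ih =>
    rw [← ih]
    have h1 := sum_range_succ (fun j : ℕ => F (((j : ℝ) + b) / D)) D
    have h2 := sum_range_succ' (fun j : ℕ => F (((j : ℝ) + b) / D)) D
    have h3 : F (((D : ℝ) + b) / D) = F (((0 : ℕ) + b : ℝ) / D) := by
      rw [← hF (((0 : ℕ) + b : ℝ) / D)]
      congr 1
      push_cast
      field_simp
      ring
    have h4 : ∑ j ∈ range D, F (((j : ℝ) + ((b + 1 : ℕ) : ℝ)) / D) = ∑ j ∈ range D, F ((((j + 1 : ℕ) : ℝ) + b) / D) := by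
      refine sum_congr rfl fun j _ => ?_
      congr 2
      push_cast
      ring
    rw [h4]
    rw [h1, h3] at h2
    linarith

/-- the power mean with weights -/
lemma holder {ι : Type*} (s : Finset ι) (H w : ι → ℝ) (hH : ∀ i ∈ s, 0 ≤ H i) (hw : ∀ i ∈ s, 0 ≤ w i) (t : ℕ) (ht : 1 ≤ t) :
    (∑ i ∈ s, H i * w i) ^ t ≤ (∑ i ∈ s, H i) ^ (t - 1) * ∑ i ∈ s, H i * w i ^ t := by
  obtain ⟨Z, hZ⟩ : ∃ Z, Z = ∑ i ∈ s, H i := ⟨_, rfl⟩
  have hZ0 : 0 ≤ Z := by rw [hZ]; exact sum_nonneg hH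
  rw [← hZ]
  rcases hZ0.eq_or_lt with h0 | h0
  · have h1 : ∀ i ∈ s, H i = 0 := by
      rw [← h0] at hZ
      exact (sum_eq_zero_iff_of_nonneg hH).1 hZ.symm
    have h2 : ∑ i ∈ s, H i * w i = 0 := sum_eq_zero fun i hi => by rw [h1 i hi, zero_mul]
    rw [h2, zero_pow (by omega)]
    exact mul_nonneg (pow_nonneg hZ0 _) (sum_nonneg fun i hi => mul_nonneg (hH i hi) (pow_nonneg (hw i hi) _))
  · have h1 := Real.pow_arith_mean_le_arith_mean_pow s (fun i => H i / Z) w (fun i hi => div_nonneg (hH i hi) hZ0)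
      (by rw [← sum_div, ← hZ, div_self h0.ne']) hw t
    have h2 : ∑ i ∈ s, H i / Z * w i = (∑ i ∈ s, H i * w i) / Z := by
      rw [sum_div]
      exact sum_congr rfl fun i _ => by ring
    have h3 : ∑ i ∈ s, H i / Z * w i ^ t = (∑ i ∈ s, H i * w i ^ t) / Z := by
      rw [sum_div]
      exact sum_congr rfl fun i _ => by ring
    rw [h2, h3, div_pow, div_le_div_iff₀ (by positivity) h0] at h1
    have h4 : Z ^ t = Z ^ (t - 1) * Z := by
      rw [← pow_succ]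
      congr 1
      omega
    rw [h4] at h1
    have h5 : (∑ i ∈ s, H i * w i) ^ t * Z ≤ (Z ^ (t - 1) * ∑ i ∈ s, H i * w i ^ t) * Z := by
      refine h1.trans (le_of_eq ?_)
      ring
    exact le_of_mul_le_mul_right h5 h0

/-- the sum of the squares of the weights of `n` -/
lemma Asum_sq {c N M D : ℕ} (hc : 1 ≤ c) (hM : c * N ≤ M) (hD : M < D) (g : ℕ → ℂ) (hg : ∀ n, ‖g n‖ ≤ 1) :
    ∑ j ∈ range D, ‖Asum c N g ((j : ℝ) / D)‖ ^ 2 ≤ D * N := by
  have hinj : Set.InjOn (fun n => c * n) (Icc 1 N : Finset ℕ) := by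
    intro a _ b _ hab
    exact Nat.eq_of_mul_eq_mul_left (by omega : 0 < c) hab
  have h1 : ∀ x, Asum c N g x = ∑ b ∈ (Icc 1 N).image (fun n => c * n), (starRingEnd ℂ) (g (b / c)) * ee ((b : ℝ) * x) := by
    intro x
    unfold Asum
    rw [sum_image hinj]
    refine sum_congr rfl fun n _ => ?_
    rw [Nat.mul_div_cancel_left _ (by omega : 0 < c)]
  simp only [h1]
  have h2 := Pool.Agent.Y872.GJ.parseval D ((Icc 1 N).image (fun n => c * n)) (by
    intro b hb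
    rw [mem_image] at hb
    obtain ⟨n, hn, rfl⟩ := hb
    rw [mem_Icc] at hn
    have : c * n ≤ c * N := Nat.mul_le_mul_left _ hn.2
    omega) (fun b => (starRingEnd ℂ) (g (b / c)))
  rw [h2]
  apply mul_le_mul_of_nonneg_left _ (Nat.cast_nonneg _)
  calc ∑ b ∈ (Icc 1 N).image (fun n => c * n), ‖(starRingEnd ℂ) (g (b / c))‖ ^ 2
      ≤ ∑ _b ∈ (Icc 1 N).image (fun n => c * n), (1 : ℝ) := by
        refine sum_le_sum fun b _ => ?_
        rw [RCLike.norm_conj]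
        exact pow_le_one₀ (norm_nonneg _) (hg _)
    _ = (((Icc 1 N).image (fun n => c * n)).card : ℝ) := by rw [sum_const, nsmul_eq_mul, mul_one]
    _ ≤ N := by
        have : ((Icc 1 N).image (fun n => c * n)).card ≤ N := by
          refine card_image_le.trans ?_
          rw [Nat.card_Icc]
          omega
        exact_mod_cast this

/-- the moment of the weights of the shifts -/
lemma Wsum_pow {M D t : ℕ} (S : Finset ℕ) (hS : ∀ s ∈ S, s ≤ M) (hD : t * M < D) (e : ℕ → ℂ) (he : ∀ s, ‖e s‖ ≤ 1) :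
    ∑ j ∈ range D, ‖Wsum S e ((j : ℝ) / D)‖ ^ (2 * t) ≤ D * energy t S := by
  classical
  obtain ⟨Pi, hPi⟩ : ∃ Pi, Pi = Fintype.piFinset (fun _ : Fin t => S) := ⟨_, rfl⟩
  obtain ⟨R, hR⟩ : ∃ R : ℕ → ℂ, R = fun m => ∑ v ∈ Pi.filter (fun v => ∑ i, v i = m), ∏ i, (starRingEnd ℂ) (e (v i)) := ⟨_, rfl⟩
  have hmem : ∀ v ∈ Pi, ∑ i, v i ∈ range (t * M + 1) := by
    intro v hv
    rw [hPi, Fintype.mem_piFinset] at hv
    rw [mem_range]
    have : ∑ i, v i ≤ ∑ _i : Fin t, M := sum_le_sum fun i _ => hS _ (hv i)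
    rw [sum_const, card_univ, Fintype.card_fin, smul_eq_mul] at this
    omega
  have h1 : ∀ x, (Wsum S e x) ^ t = ∑ m ∈ range (t * M + 1), R m * ee ((m : ℝ) * x) := by
    intro x
    have e1 : (Wsum S e x) ^ t = ∑ v ∈ Pi, ∏ i, ((starRingEnd ℂ) (e (v i)) * ee (((v i : ℕ) : ℝ) * x)) := by
      unfold Wsum
      rw [hPi, ← prod_univ_sum (fun _ : Fin t => S) (fun _ s => (starRingEnd ℂ) (e s) * ee ((s : ℝ) * x)), prod_const,
        card_univ, Fintype.card_fin]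
    rw [e1, ← sum_fiberwise_of_maps_to hmem]
    refine sum_congr rfl fun m _ => ?_
    rw [hR]
    simp only
    rw [sum_mul]
    refine sum_congr rfl fun v hv => ?_
    rw [mem_filter] at hv
    rw [prod_mul_distrib]
    congr 1
    have e2 : ∀ (s : Finset (Fin t)), ∏ i ∈ s, ee (((v i : ℕ) : ℝ) * x) = ee (((∑ i ∈ s, v i : ℕ) : ℝ) * x) := by
      intro s
      induction s using Finset.induction_on with
      | empty => simp [ee_zero]
      | insert a s ha ih =>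
        rw [prod_insert ha, ih, sum_insert ha, ← ee_add]
        congr 1
        push_cast
        ring
    rw [e2, hv.2]
  have h2 : ∀ j ∈ range D, ‖Wsum S e ((j : ℝ) / D)‖ ^ (2 * t) =
      ‖∑ m ∈ range (t * M + 1), R m * ee ((m : ℝ) * ((j : ℝ) / D))‖ ^ 2 := by
    intro j _
    rw [← h1, norm_pow, ← pow_mul, mul_comm t 2]
  rw [sum_congr rfl h2, Pool.Agent.Y872.GJ.parseval D (range (t * M + 1)) (by
    intro n hn
    rw [mem_range] at hn
    omega) R]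
  apply mul_le_mul_of_nonneg_left _ (Nat.cast_nonneg _)
  have h3 : ∀ m, ‖R m‖ ≤ ((Pi.filter (fun v => ∑ i, v i = m)).card : ℝ) := by
    intro m
    rw [hR]
    refine (norm_sum_le _ _).trans ?_
    rw [← nsmul_one, ← sum_const]
    refine sum_le_sum fun v _ => ?_
    rw [norm_prod]
    exact prod_le_one (fun _ _ => norm_nonneg _) (fun i _ => by rw [RCLike.norm_conj]; exact he _)
  have h4 : energy t S = ∑ m ∈ range (t * M + 1), (Pi.filter (fun v => ∑ i, v i = m)).card ^ 2 := by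
    unfold energy
    rw [← hPi]
    rw [card_eq_sum_card_fiberwise (f := fun x : (Fin t → ℕ) × (Fin t → ℕ) => ∑ i, x.1 i) (t := range (t * M + 1))]
    · refine sum_congr rfl fun m _ => ?_
      rw [sq, ← card_product]
      congr 1
      ext x
      simp only [mem_filter, mem_product]
      constructor
      · rintro ⟨⟨⟨a1, a2⟩, a3⟩, a4⟩
        exact ⟨⟨a1, a4⟩, a2, a3 ▸ a4⟩
      · rintro ⟨⟨a1, a4⟩, a2, a3⟩
        exact ⟨⟨⟨a1, a2⟩, a4.trans a3.symm⟩, a4⟩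
    · intro x hx
      rw [mem_coe, mem_filter, mem_product] at hx
      exact hmem _ hx.1.1
  rw [h4]
  push_cast
  exact sum_le_sum fun m _ => pow_le_pow_left₀ (norm_nonneg _) (h3 m) 2

/-- the sum over an arbitrary set of shifts in a residue class modulo `q` -/
theorem thin_form {c N M q t : ℕ} [NeZero q] (ht : 1 ≤ t) (hc : 1 ≤ c) (S : Finset ℕ) (r : ℕ)
    (hS : ∀ s ∈ S, c * N + s ≤ M) (hr : ∀ s ∈ S, s % q = r % q) (G : ℕ → ℂ) (Y : ℝ)
    (hY : ∀ β : ℝ, ∑ a ∈ range q, ‖sm M G (β + a / q)‖ ^ 2 ≤ Y) (g : ℕ → ℂ) (hg : ∀ n, ‖g n‖ ≤ 1) :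
    (∑ s ∈ S, ‖∑ n ∈ Icc 1 N, g n * G (c * n + s)‖) ^ (2 * t) ≤
      (N : ℝ) ^ t * (∑ m ∈ Icc 1 M, ‖G m‖ ^ 2) ^ (t - 1) * Y * energy t S / q := by
  classical
  have hq1 : 1 ≤ q := NeZero.pos q
  have hq0 : (0 : ℝ) < q := by exact_mod_cast hq1
  rcases S.eq_empty_or_nonempty with hSe | ⟨s₀, hs₀⟩
  · subst hSe
    rw [sum_empty, zero_pow (by omega)]
    have hY0 : 0 ≤ Y := (sum_nonneg fun _ _ => by positivity).trans (hY 0)
    have : 0 ≤ ∑ m ∈ Icc 1 M, ‖G m‖ ^ 2 := sum_nonneg fun _ _ => by positivity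
    positivity
  obtain ⟨R, hR⟩ : ∃ R, R = (t + 1) * (M + 1) := ⟨_, rfl⟩
  obtain ⟨D, hD⟩ : ∃ D, D = q * R := ⟨_, rfl⟩
  have hR1 : 1 ≤ R := by rw [hR]; exact Nat.mul_pos (by omega) (by omega)
  have hRM : t * M < R ∧ M < R := by
    rw [hR]
    constructor
    · nlinarith
    · nlinarith
  have hRD : R ≤ D := by rw [hD]; exact Nat.le_mul_of_pos_left _ (by omega)
  have hD1 : 1 ≤ D := by omega
  have hD0 : (0 : ℝ) < D := by exact_mod_cast hD1
  have hcN : c * N ≤ M := by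
    have := hS s₀ hs₀
    omega
  -- the signs
  obtain ⟨z, hz⟩ : ∃ z : ℕ → ℂ, z = fun s => ∑ n ∈ Icc 1 N, g n * G (c * n + s) := ⟨_, rfl⟩
  obtain ⟨e, he⟩ : ∃ e : ℕ → ℂ, e = fun s => (starRingEnd ℂ) (z s) / ‖z s‖ := ⟨_, rfl⟩
  have he1 : ∀ s, ‖e s‖ ≤ 1 := by
    intro s
    rw [he]
    simp only
    rw [norm_div, RCLike.norm_conj, Complex.norm_real, norm_norm]
    exact div_self_le_one _
  have he2 : ∀ s, e s * z s = (‖z s‖ : ℂ) := by
    intro s
    rw [he]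
    simp only
    by_cases h0 : z s = 0
    · rw [h0]; simp
    · have h1 : (‖z s‖ : ℂ) ≠ 0 := by
        exact_mod_cast norm_ne_zero_iff.2 h0
      rw [div_mul_eq_mul_div, div_eq_iff h1, mul_comm, Complex.mul_conj, Complex.normSq_eq_norm_sq]
      push_cast
      ring
  obtain ⟨X, hX⟩ : ∃ X : ℝ, X = ∑ s ∈ S, ‖∑ n ∈ Icc 1 N, g n * G (c * n + s)‖ := ⟨_, rfl⟩
  have hX0 : 0 ≤ X := by rw [hX]; exact sum_nonneg fun _ _ => norm_nonneg _
  rw [← hX]
  obtain ⟨P, hP⟩ : ∃ P : ℕ → ℝ, P = fun j : ℕ => ‖sm M G ((j : ℝ) / D)‖ := ⟨_, rfl⟩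
  obtain ⟨Av, hAv⟩ : ∃ Av : ℕ → ℝ, Av = fun j : ℕ => ‖Asum c N g ((j : ℝ) / D)‖ := ⟨_, rfl⟩
  obtain ⟨Wv, hWv⟩ : ∃ Wv : ℕ → ℝ, Wv = fun j : ℕ => ‖Wsum S e ((j : ℝ) / D)‖ := ⟨_, rfl⟩
  have hexp := expand (M := M) (N := N) (c := c) (D := D) (by omega) G g e S hS hc
  have hstep1 : (D : ℝ) * X ≤ ∑ j ∈ range D, Av j * (P j * Wv j) := by
    have e1 : (((D : ℝ) * X : ℝ) : ℂ) = ∑ j ∈ range D, sm M G ((j : ℝ) / D) *
        (starRingEnd ℂ) (Asum c N g ((j : ℝ) / D) * Wsum S e ((j : ℝ) / D)) := by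
      rw [hexp, hX]
      push_cast
      congr 1
      refine sum_congr rfl fun s _ => ?_
      have := he2 s
      rw [hz] at this
      simp only at this
      rw [this]
    have e2 : (D : ℝ) * X = ‖(((D : ℝ) * X : ℝ) : ℂ)‖ := by
      rw [Complex.norm_real, Real.norm_eq_abs, abs_of_nonneg (by positivity)]
    rw [e2, e1]
    refine (norm_sum_le _ _).trans (sum_le_sum fun j _ => ?_)
    rw [norm_mul, RCLike.norm_conj, norm_mul, hP, hAv, hWv]
    simp only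
    rw [mul_left_comm]
  -- Cauchy-Schwarz
  have hCS := sum_mul_sq_le_sq_mul_sq (range D) Av (fun j => P j * Wv j)
  have hA2 : ∑ j ∈ range D, Av j ^ 2 ≤ D * N := by
    rw [hAv]
    exact Asum_sq hc hcN (by omega) g hg
  -- the shifts of the grid by fractions with the denominator `q`
  obtain ⟨H, hH⟩ : ∃ H : ℕ → ℝ, H = fun j : ℕ => ∑ a ∈ range q, ‖sm M G ((j : ℝ) / D + a / q)‖ ^ 2 := ⟨_, rfl⟩
  have hH0 : ∀ j, 0 ≤ H j := fun j => by rw [hH]; exact sum_nonneg fun _ _ => by positivity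
  have hHY : ∀ j, H j ≤ Y := fun j => by rw [hH]; exact hY _
  have hY0 : 0 ≤ Y := (hH0 0).trans (hHY 0)
  have hDR : (D : ℝ) = q * R := by rw [hD]; push_cast; ring
  have hgrid : ∀ (a j : ℕ), ((j : ℝ) + ((a * R : ℕ) : ℝ)) / D = (j : ℝ) / D + a / q := by
    intro a j
    have hR0 : (0 : ℝ) < R := by exact_mod_cast hR1
    rw [add_div]
    congr 1
    rw [hDR]
    push_cast
    field_simp
  have hper : ∀ x : ℝ, sm M G (x + 1) = sm M G x := by
    intro x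
    have := Pool.Agent.T2h83.AM.sm_add_int M G x 1
    simpa using this
  have hWper : ∀ x : ℝ, Wsum S e (x + 1) = Wsum S e x := by
    intro x
    unfold Wsum
    refine sum_congr rfl fun s _ => ?_
    have e1 : ((s : ℝ) * (x + 1)) = (s : ℝ) * x + ((s : ℤ) : ℝ) := by push_cast; ring
    rw [e1, ee_add_int]
  have hWq : ∀ (a : ℕ) (x : ℝ), ‖Wsum S e (x + a / q)‖ = ‖Wsum S e x‖ := by
    intro a x
    have e1 : Wsum S e (x + a / q) = ee ((r : ℝ) * (a / q)) * Wsum S e x := by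
      unfold Wsum
      rw [mul_sum]
      refine sum_congr rfl fun s hs => ?_
      have e2 : (s : ℝ) * (x + a / q) = (s : ℝ) * x + (s : ℝ) * (a / q) := by ring
      have e3 : ee ((s : ℝ) * (a / q)) = ee ((r : ℝ) * (a / q)) := by
        have := Pool.Agent.T2h83.AM.ee_class hq1 (a : ℤ) (n := s) (c := r) (hr s hs)
        simpa using this
      rw [e2, ee_add, e3]
      ring
    rw [e1, norm_mul, norm_ee, one_mul]
  have hshift : ∀ a ∈ range q, ∑ j ∈ range D, ‖sm M G ((j : ℝ) / D + a / q)‖ ^ 2 * Wv j ^ 2 =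
      ∑ j ∈ range D, P j ^ 2 * Wv j ^ 2 := by
    intro a _
    have e1 := grid_shift D hD1 (fun x => ‖sm M G x‖ ^ 2 * ‖Wsum S e x‖ ^ 2) (fun x => by rw [hper, hWper]) (a * R)
    simp only [hgrid] at e1
    simp only [hWq] at e1
    rw [hP, hWv]
    exact e1
  have hshift1 : ∀ a ∈ range q, ∑ j ∈ range D, ‖sm M G ((j : ℝ) / D + a / q)‖ ^ 2 = ∑ j ∈ range D, P j ^ 2 := by
    intro a _
    have e1 := grid_shift D hD1 (fun x => ‖sm M G x‖ ^ 2) (fun x => by rw [hper]) (a * R)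
    simp only [hgrid] at e1
    rw [hP]
    exact e1
  have hPW : (q : ℝ) * ∑ j ∈ range D, P j ^ 2 * Wv j ^ 2 = ∑ j ∈ range D, H j * Wv j ^ 2 := by
    have e1 : ∑ j ∈ range D, H j * Wv j ^ 2 = ∑ a ∈ range q, ∑ j ∈ range D, ‖sm M G ((j : ℝ) / D + a / q)‖ ^ 2 * Wv j ^ 2 := by
      rw [sum_comm, hH]
      refine sum_congr rfl fun j _ => ?_
      simp only
      rw [sum_mul]
    rw [e1, sum_congr rfl hshift, sum_const, card_range, nsmul_eq_mul]
  have hHsum : ∑ j ∈ range D, H j = q * (D * ∑ m ∈ Icc 1 M, ‖G m‖ ^ 2) := by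
    have e1 : ∑ j ∈ range D, H j = ∑ a ∈ range q, ∑ j ∈ range D, ‖sm M G ((j : ℝ) / D + a / q)‖ ^ 2 := by
      rw [sum_comm, hH]
    rw [e1, sum_congr rfl hshift1, sum_const, card_range, nsmul_eq_mul]
    congr 1
    rw [hP]
    exact Pool.Agent.Y872.GJ.parseval D (Icc 1 M) (by
      intro n hn
      rw [mem_Icc] at hn
      omega) G
  obtain ⟨B, hB⟩ : ∃ B, B = ∑ m ∈ Icc 1 M, ‖G m‖ ^ 2 := ⟨_, rfl⟩
  have hB0 : 0 ≤ B := by rw [hB]; exact sum_nonneg fun _ _ => by positivity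
  rw [← hB] at hHsum ⊢
  have hHo := holder (range D) H (fun j => Wv j ^ 2) (fun j _ => hH0 j) (fun j _ => sq_nonneg _) t ht
  have hWt : ∑ j ∈ range D, H j * (Wv j ^ 2) ^ t ≤ Y * (D * energy t S) := by
    calc ∑ j ∈ range D, H j * (Wv j ^ 2) ^ t ≤ ∑ j ∈ range D, Y * Wv j ^ (2 * t) := by
          refine sum_le_sum fun j _ => ?_
          rw [← pow_mul]
          exact mul_le_mul_of_nonneg_right (hHY j) (by rw [hWv]; positivity)
      _ = Y * ∑ j ∈ range D, Wv j ^ (2 * t) := by rw [mul_sum]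
      _ ≤ Y * (D * energy t S) := by
          apply mul_le_mul_of_nonneg_left _ hY0
          rw [hWv]
          exact Wsum_pow (M := M) S (fun s hs => by have := hS s hs; omega) (by omega) e he1
  rw [hHsum] at hHo
  obtain ⟨V, hV⟩ : ∃ V, V = ∑ j ∈ range D, P j ^ 2 * Wv j ^ 2 := ⟨_, rfl⟩
  rw [← hPW, ← hV] at hHo
  have hV0 : 0 ≤ V := by rw [hV]; exact sum_nonneg fun _ _ => by positivity
  have hDX : ((D : ℝ) * X) ^ 2 ≤ (D * N) * V := by
    calc ((D : ℝ) * X) ^ 2 ≤ (∑ j ∈ range D, Av j * (P j * Wv j)) ^ 2 := pow_le_pow_left₀ (by positivity) hstep1 2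
      _ ≤ (∑ j ∈ range D, Av j ^ 2) * ∑ j ∈ range D, (P j * Wv j) ^ 2 := hCS
      _ = (∑ j ∈ range D, Av j ^ 2) * V := by
          rw [hV]
          congr 1
          exact sum_congr rfl fun j _ => by ring
      _ ≤ _ := mul_le_mul_of_nonneg_right hA2 hV0
  have hE0 : (0 : ℝ) ≤ energy t S := Nat.cast_nonneg _
  have hN0 : (0 : ℝ) ≤ N := Nat.cast_nonneg _
  have hfin : ((D : ℝ) * X) ^ (2 * t) * (q : ℝ) ^ t ≤ (D * N) ^ t * ((q * (D * B)) ^ (t - 1) * (Y * (D * energy t S))) := by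
    rw [pow_mul]
    calc (((D : ℝ) * X) ^ 2) ^ t * (q : ℝ) ^ t ≤ ((D * N) * V) ^ t * (q : ℝ) ^ t := by
          apply mul_le_mul_of_nonneg_right _ (by positivity)
          exact pow_le_pow_left₀ (by positivity) hDX t
      _ = (D * N) ^ t * (q * V) ^ t := by rw [mul_pow (D * N : ℝ), mul_pow (q : ℝ) V]; ring
      _ ≤ (D * N) ^ t * ((q * (D * B)) ^ (t - 1) * (Y * (D * energy t S))) := by
          apply mul_le_mul_of_nonneg_left _ (by positivity)
          exact hHo.trans (mul_le_mul_of_nonneg_left hWt (by positivity))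
  obtain ⟨t', rfl⟩ : ∃ t', t = t' + 1 := ⟨t - 1, by omega⟩
  rw [Nat.add_sub_cancel] at hfin ⊢
  rw [le_div_iff₀ hq0]
  have h9 : (0 : ℝ) < (D : ℝ) ^ (2 * (t' + 1)) * (q : ℝ) ^ t' := by positivity
  have h10 : ((D : ℝ) ^ (2 * (t' + 1)) * (q : ℝ) ^ t') * (X ^ (2 * (t' + 1)) * q) ≤
      ((D : ℝ) ^ (2 * (t' + 1)) * (q : ℝ) ^ t') * ((N : ℝ) ^ (t' + 1) * B ^ t' * Y * energy (t' + 1) S) := by
    have e1 : ((D : ℝ) ^ (2 * (t' + 1)) * (q : ℝ) ^ t') * (X ^ (2 * (t' + 1)) * q) =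
        ((D : ℝ) * X) ^ (2 * (t' + 1)) * (q : ℝ) ^ (t' + 1) := by
      rw [mul_pow, pow_succ (q : ℝ) t']
      ring
    rw [e1]
    refine hfin.trans (le_of_eq ?_)
    have e2 : (D : ℝ) ^ (2 * (t' + 1)) = (D : ℝ) ^ (t' + 1) * (D : ℝ) ^ t' * D := by
      rw [← pow_add, ← pow_succ]
      congr 1
      ring
    rw [e2, mul_pow, mul_pow, mul_pow]
    ring
  exact le_of_mul_le_mul_left h10 h9

end Pool.Agent.T2h83.TH
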