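import Pool.Agent.T2h83.TH.Univ
import Pool.Agent.T2h83.AM.Lin6

/-!
Project TH (helper83): systems of linear forms with the shifts in arbitrary sets in residue classes of almost all moduli.
-/

set_option autoImplicit false

namespace Pool.Agent.T2h83.TH

open Finset
open Pool.Agent.T2h83.AM
open Pool.Agent.H373R2.T7 (lamz Vz pz mem_pz Vz_pos Vz_inv_small lamz_nonneg ev_L' ev_log' avg_coord tele)

/-- the sets of shifts: numbers `≤ N` in one residue class modulo `q` with few solutions of the equation of equal sums of `t`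
elements -/
structure Thin (t T N q : ℕ) (I : Finset ℕ) : Prop where
  le : ∀ s ∈ I, s ≤ N
  cls : ∃ r : ℕ, ∀ s ∈ I, s % q = r % q
  few : (energy t I : ℝ) ≤ (I.card : ℝ) ^ (2 * t) * q * Real.log N ^ T / N

/-- the enumeration of a finite set -/
def en (S : Finset ℕ) (v : ℕ) : ℕ := if h : v - 1 < S.card then S.orderEmbOfFin rfl ⟨v - 1, h⟩ else 0

lemma en_mem (S : Finset ℕ) {v : ℕ} (hv : v ∈ Icc 1 S.card) : en S v ∈ S := by
  rw [mem_Icc] at hv
  unfold en
  rw [dif_pos (by omega)]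
  exact orderEmbOfFin_mem _ _ _

lemma en_inj (S : Finset ℕ) {v w : ℕ} (hv : v ∈ Icc 1 S.card) (hw : w ∈ Icc 1 S.card) (h : en S v = en S w) : v = w := by
  rw [mem_Icc] at hv hw
  unfold en at h
  rw [dif_pos (by omega), dif_pos (by omega)] at h
  have h1 := (S.orderEmbOfFin rfl).injective h
  rw [Fin.mk.injEq] at h1
  omega

lemma en_surj (S : Finset ℕ) {s : ℕ} (hs : s ∈ S) : ∃ v ∈ Icc 1 S.card, en S v = s := by
  have h1 : (s : ℕ) ∈ Set.range (S.orderEmbOfFin rfl) := by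
    rw [range_orderEmbOfFin]
    exact hs
  obtain ⟨j, hj⟩ := h1
  refine ⟨j.1 + 1, ?_, ?_⟩
  · rw [mem_Icc]
    have := j.2
    omega
  · unfold en
    rw [dif_pos (by have := j.2; omega)]
    rw [← hj]
    congr 1

lemma sum_en1 (S : Finset ℕ) (F : ℕ → ℝ) : ∑ v ∈ Icc 1 S.card, F (en S v) = ∑ s ∈ S, F s := by
  refine sum_nbij (en S) (fun v hv => en_mem S hv) (fun v hv w hw h => en_inj S hv hw h) (fun s hs => ?_) (fun _ _ => rfl)
  obtain ⟨v, hv, h⟩ := en_surj S hs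
  exact ⟨v, hv, h⟩

lemma sum_en {k : ℕ} (S : Fin k → Finset ℕ) (F : (Fin k → ℕ) → ℝ) :
    ∑ m ∈ Fintype.piFinset (fun i => Icc 1 (S i).card), F (fun i => en (S i) (m i)) = ∑ h ∈ Fintype.piFinset S, F h := by
  refine sum_nbij (fun m i => en (S i) (m i)) (fun m hm => ?_) (fun m hm m' hm' h => ?_) (fun h hh => ?_) (fun _ _ => rfl)
  · rw [Fintype.mem_piFinset] at hm ⊢
    exact fun i => en_mem _ (hm i)
  · rw [mem_coe, Fintype.mem_piFinset] at hm hm'
    funext i
    exact en_inj _ (hm i) (hm' i) (congrFun h i)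
  · rw [mem_coe, Fintype.mem_piFinset] at hh
    choose f hf1 hf2 using fun i => en_surj (S i) (hh i)
    refine ⟨f, ?_, funext hf2⟩
    rw [mem_coe, Fintype.mem_piFinset]
    exact hf1

/-- the difference to the sieve model, for arbitrary sets of shifts -/
theorem thin_diff {k : ℕ} (c : Fin k → ℕ) (hc : ∀ i, 1 ≤ c i) (A U t T : ℕ) (ht : 1 ≤ t) :
    ∃ B : ℕ, ∀ E : ℕ, ∃ N₀ : ℕ, ∀ N : ℕ, N₀ ≤ N →
    ∀ z : ℕ, Real.log N ^ B ≤ z → (z : ℝ) ≤ Real.log N ^ E → ∀ Q : ℕ, (Q : ℝ) * Real.log N ^ B ≤ N →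
    ∃ S : Finset ℕ, (S.card : ℝ) ≤ Q / Real.log N ^ A ∧ ∀ q ∈ Ioc Q (2 * Q), q ∉ S →
      ∀ I : Fin k → Finset ℕ, (∀ i, Thin t T N q (I i)) →
      ∑ h ∈ Fintype.piFinset I,
        |∑ n ∈ Icc 1 N, ArithmeticFunction.vonMangoldt n *
          (∏ i, ArithmeticFunction.vonMangoldt (c i * n + h i) - ∏ i, lamz z (c i * n + h i))| ≤
        N * (∏ i, ((I i).card : ℝ)) / Real.log N ^ U := by
  classical
  obtain ⟨C, hC⟩ : ∃ C, C = 2 + ∑ i, c i := ⟨_, rfl⟩
  obtain ⟨B, hB⟩ := thin_univ C A (U + k + 2) t T ht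
  refine ⟨B, fun E => ?_⟩
  obtain ⟨N₁, h1⟩ := hB E
  obtain ⟨N₂, h2⟩ := Vz_inv_small E
  obtain ⟨N₃, h3⟩ := ev_L' (Real.log C + k * 2 ^ k + 100)
  refine ⟨N₁ + N₂ + N₃ + 3, fun N hN z hz1 hz2 Q hQ => ?_⟩
  obtain ⟨S, hS1, hS2⟩ := h1 N (by omega) z hz1 hz2 Q hQ
  refine ⟨S, hS1, fun q hq hqS I hI => ?_⟩
  have hS3 := hS2 q hq hqS
  have hN1 : 1 ≤ N := by omega
  have hN0 : (0 : ℝ) < N := by exact_mod_cast hN1
  have hlC : 0 ≤ Real.log C := Real.log_natCast_nonneg C
  have hLbig := h3 N (by omega)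
  have hk2 : (0 : ℝ) ≤ k * 2 ^ k := by positivity
  have hVN := h2 N (by omega) z (by
    have : (1 : ℝ) ≤ z := (one_le_pow₀ (by linarith)).trans hz1
    exact_mod_cast this) hz2
  have hCN1 : (1 : ℝ) ≤ C * N := by
    have : 1 ≤ C * N := Nat.mul_pos (by omega) hN1
    exact_mod_cast this
  have hlCN : Real.log ((C : ℝ) * N) = Real.log C + Real.log N := by
    rw [Real.log_mul (by have : (0 : ℝ) < C := by exact_mod_cast (by omega : 0 < C)
                         exact this.ne') hN0.ne']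
  obtain ⟨L, hLd⟩ : ∃ L, L = Real.log (N : ℝ) := ⟨_, rfl⟩
  have hvM : ∀ m : ℕ, 1 ≤ m → m ≤ C * N → ArithmeticFunction.vonMangoldt m ≤ 2 * L := by
    intro m hm1 hm2
    have e1 : ArithmeticFunction.vonMangoldt m ≤ Real.log ((C : ℝ) * N) :=
      ArithmeticFunction.vonMangoldt_le_log.trans (Real.log_le_log (by exact_mod_cast hm1) (by exact_mod_cast hm2))
    rw [hlCN] at e1
    rw [← hLd] at hLbig e1
    linarith
  have hvN : ∀ m : ℕ, m ∈ Icc 1 N → ArithmeticFunction.vonMangoldt m ≤ L := by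
    intro m hm
    rw [mem_Icc] at hm
    rw [hLd]
    exact ArithmeticFunction.vonMangoldt_le_log.trans (Real.log_le_log (by exact_mod_cast hm.1) (by exact_mod_cast hm.2))
  rw [← hLd] at hLbig hVN hS3 ⊢
  have hL100 : 100 ≤ L := by linarith
  have hL0 : 0 < L := by linarith
  have hL1 : 1 ≤ L := by linarith
  by_cases hne : ∀ i, (I i).Nonempty
  swap
  · push Not at hne
    obtain ⟨i, hi⟩ := hne
    have : Fintype.piFinset I = ∅ := by
      apply eq_empty_of_forall_notMem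
      intro h hh
      rw [Fintype.mem_piFinset] at hh
      have h1 := hh i
      rw [hi] at h1
      exact absurd h1 (notMem_empty _)
    rw [this, sum_empty]
    have : 0 ≤ ∏ i, ((I i).card : ℝ) := prod_nonneg fun _ _ => Nat.cast_nonneg _
    positivity
  have hcC : ∀ i, c i + 2 ≤ C := by
    intro i
    have := single_le_sum (f := c) (s := univ) (fun _ _ => Nat.zero_le _) (mem_univ i)
    omega
  have hargs : ∀ i, ∀ n ∈ Icc 1 N, ∀ v ∈ Icc 1 (I i).card, 1 ≤ c i * n + en (I i) v ∧ c i * n + en (I i) v ≤ C * N := by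
    intro i n hn v hv'
    rw [mem_Icc] at hn
    have e3 := (hI i).le _ (en_mem (I i) hv')
    have e5 : c i * n ≤ c i * N := Nat.mul_le_mul_left _ hn.2
    have e6 : 1 ≤ c i * n := Nat.mul_pos (by have := hc i; omega) (by omega)
    have e7 : (c i + 2) * N ≤ C * N := Nat.mul_le_mul_right _ (hcC i)
    have e8 : (c i + 2) * N = c i * N + 2 * N := by ring
    constructor <;> omega
  have key := tele N (fun i : Fin k => (I i).card) (fun i => (hne i).card_pos)
    (fun i n v => ArithmeticFunction.vonMangoldt (c i * n + en (I i) v))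
    (fun i n v => lamz z (c i * n + en (I i) v)) (2 * L) (N / L ^ (U + k + 2)) (by linarith) (by positivity) (by
      intro i n hn v hv'
      rw [abs_of_nonneg ArithmeticFunction.vonMangoldt_nonneg]
      exact hvM _ (hargs i n hn v hv').1 (hargs i n hn v hv').2) (by
      intro i n hn v hv'
      rw [abs_of_nonneg (lamz_nonneg _ _)]
      unfold lamz
      split_ifs
      · linarith
      · linarith) (by
      intro i K hK G hG
      obtain ⟨r, hr⟩ := (hI i).cls
      have e1 := hS3 (c i) (hc i) (by have := hcC i; omega) r (I i) (fun s hs =>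
        ((hI i).le s hs).trans (Nat.le_mul_of_pos_left _ (by omega))) hr (by rw [hLd]; exact (hI i).few)
        (fun n => if n ∈ Icc 1 N then ((G n / K : ℝ) : ℂ) else 0) (by
          intro n
          split_ifs with hn
          · rw [Complex.norm_real, Real.norm_eq_abs, abs_div, abs_of_pos hK, div_le_one hK]
            exact hG n hn
          · simp)
      rw [sum_en1 (I i) (fun s => |∑ n ∈ Icc 1 N, G n * (ArithmeticFunction.vonMangoldt (c i * n + s) - lamz z (c i * n + s))|)]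
      have e2 : ∀ s ∈ I i, |∑ n ∈ Icc 1 N, G n * (ArithmeticFunction.vonMangoldt (c i * n + s) - lamz z (c i * n + s))| =
          K * ‖∑ n ∈ Icc 1 N, (if n ∈ Icc 1 N then ((G n / K : ℝ) : ℂ) else 0) *
            ((ArithmeticFunction.vonMangoldt (c i * n + s) - lamz z (c i * n + s) : ℝ) : ℂ)‖ := by
        intro s _
        have e3 : ∑ n ∈ Icc 1 N, (if n ∈ Icc 1 N then ((G n / K : ℝ) : ℂ) else 0) *
            ((ArithmeticFunction.vonMangoldt (c i * n + s) - lamz z (c i * n + s) : ℝ) : ℂ) =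
            (((∑ n ∈ Icc 1 N, G n * (ArithmeticFunction.vonMangoldt (c i * n + s) - lamz z (c i * n + s))) / K : ℝ) : ℂ) := by
          rw [sum_div]
          push_cast
          refine sum_congr rfl fun n hn => ?_
          rw [if_pos hn]
          ring
        rw [e3, Complex.norm_real, Real.norm_eq_abs, abs_div, abs_of_pos hK]
        field_simp
      rw [sum_congr rfl e2, ← mul_sum]
      apply mul_le_mul_of_nonneg_left _ hK.le
      rw [mul_comm]
      exact e1)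
    univ L hL0 (fun n _ => ArithmeticFunction.vonMangoldt n) (by
      intro n hn m _
      rw [abs_of_nonneg ArithmeticFunction.vonMangoldt_nonneg]
      exact hvN n hn) (by
      intro n m v i _; rfl)
  rw [sum_en I (fun h => |∑ n ∈ Icc 1 N, ArithmeticFunction.vonMangoldt n *
          (∏ i, ArithmeticFunction.vonMangoldt (c i * n + h i) - ∏ i, lamz z (c i * n + h i))|)] at key
  refine key.trans ?_
  rw [card_univ, Fintype.card_fin]
  obtain ⟨Pr, hPr⟩ : ∃ Pr, Pr = ∏ i, ((I i).card : ℝ) := ⟨_, rfl⟩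
  have hPr0 : 0 ≤ Pr := by rw [hPr]; exact prod_nonneg fun _ _ => Nat.cast_nonneg _
  rw [← hPr]
  have e1 : (k : ℝ) * (L * (2 * L) ^ k * (N / L ^ (U + k + 2))) ≤ N / L ^ U := by
    calc (k : ℝ) * (L * (2 * L) ^ k * (N / L ^ (U + k + 2))) = (k * 2 ^ k / L) * (N / L ^ U) := by
          rw [mul_pow, show U + k + 2 = U + k + 1 + 1 by ring, pow_succ L (U + k + 1), pow_succ L (U + k), pow_add L U k]
          field_simp
      _ ≤ 1 * (N / L ^ U) := by
          apply mul_le_mul_of_nonneg_right _ (by positivity)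
          rw [div_le_one hL0]
          linarith
      _ = _ := one_mul _
  calc _ ≤ (N / L ^ U) * Pr := mul_le_mul_of_nonneg_right e1 hPr0
    _ = _ := by ring

/-- the deterministic part -/
lemma det_L {k : ℕ} (c : Fin k → ℕ) (hc : ∀ i, 1 ≤ c i) (U B₁ : ℕ) : ∃ E1 : ℕ, B₁ ≤ E1 ∧ ∃ N₀ : ℕ, ∀ N : ℕ, N₀ ≤ N →
    ∃ z : ℕ, Real.log N ^ B₁ ≤ z ∧ (z : ℝ) ≤ Real.log N ^ (E1 + 1) ∧ ∀ h : Fin k → ℕ, (∀ i, h i ≤ 2 * N) → NonDeg c h →
      |∑ n ∈ Icc 1 N, ArithmeticFunction.vonMangoldt n *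
        (∏ i, ArithmeticFunction.vonMangoldt (c i * n + h i) - ∏ i, lamz z (c i * n + h i))| ≤
        (1 / 4) * (N / Real.log N ^ U) → GoodL U N c h := by
  obtain ⟨C, hC⟩ : ∃ C, C = 2 + ∑ i, c i := ⟨_, rfl⟩
  obtain ⟨E1, hE1⟩ : ∃ E1, E1 = max B₁ (U + k + 6) := ⟨_, rfl⟩
  refine ⟨E1, by rw [hE1]; exact le_max_left _ _, ?_⟩
  obtain ⟨N₂, h2⟩ := main_L c hc (E1 + 1) (U + 2)
  obtain ⟨N₃, h3⟩ := Vz_inv_small (E1 + 1)
  obtain ⟨N₄, h4⟩ := ev_log' (U + k + 5) 1
  obtain ⟨N₅, h5⟩ := ev_L' (Real.log C + 100 + 4 * (((k : ℝ) + 1) * 2 ^ (k + 1) * (4 * C)) + C +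
    4 * ((k : ℝ) + k * k) + 3 * (k + 1) + (((k + 1 : ℕ) : ℝ) ^ 2 + 4 * ((k + 1 : ℕ) : ℝ) * ((k + k * k) * (4 * (Real.log C + 1)))) + 20)
  refine ⟨N₂ + N₃ + N₄ + N₅ + 3, fun N hN => ?_⟩
  have hN1 : 1 ≤ N := by omega
  have hN0 : (0 : ℝ) < N := by exact_mod_cast hN1
  have c2 := h2 N (by omega)
  have c3 := h3 N (by omega)
  have c4 := h4 N (by omega)
  have c5 := h5 N (by omega)
  rw [one_mul] at c4
  have hC2 : (2 : ℝ) ≤ C := by exact_mod_cast (by omega : 2 ≤ C)
  have hlC : 0 ≤ Real.log C := Real.log_natCast_nonneg C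
  obtain ⟨X, hX⟩ : ∃ X, X = C * N := ⟨_, rfl⟩
  have hXr : (X : ℝ) = C * N := by rw [hX]; push_cast; ring
  have hlogX' : Real.log X = Real.log C + Real.log N := by
    rw [hXr, Real.log_mul (by linarith) hN0.ne']
  unfold GoodL
  obtain ⟨L, hLd⟩ : ∃ L, L = Real.log (N : ℝ) := ⟨_, rfl⟩
  rw [← hLd] at c2 c3 c4 c5 hlogX' ⊢
  have hk0 : (0 : ℝ) ≤ k := Nat.cast_nonneg _
  have p1 : 0 ≤ 4 * (((k : ℝ) + 1) * 2 ^ (k + 1) * (4 * C)) := by positivity
  have p2 : 0 ≤ 4 * ((k : ℝ) + k * k) := by positivity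
  have p3 : 0 ≤ (((k + 1 : ℕ) : ℝ) ^ 2 + 4 * ((k + 1 : ℕ) : ℝ) * ((k + k * k) * (4 * (Real.log C + 1)))) := by positivity
  have hL100 : 100 ≤ L := by linarith
  have hL0 : 0 < L := by linarith
  have hL1 : 1 ≤ L := by linarith
  -- the parameter `z`
  obtain ⟨z, hz⟩ : ∃ z, z = ⌈L ^ E1⌉₊ := ⟨_, rfl⟩
  have hzlo : L ^ E1 ≤ z := by rw [hz]; exact Nat.le_ceil _
  have hL1B : 1 ≤ L ^ E1 := one_le_pow₀ hL1
  have hzhi : (z : ℝ) ≤ L ^ (E1 + 1) := by
    have := Nat.ceil_lt_add_one (show 0 ≤ L ^ E1 by positivity)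
    rw [← hz] at this
    calc (z : ℝ) ≤ L ^ E1 + 1 := this.le
      _ ≤ L ^ E1 + L ^ E1 := by linarith
      _ = 2 * L ^ E1 := by ring
      _ ≤ L * L ^ E1 := mul_le_mul_of_nonneg_right (by linarith) (by positivity)
      _ = L ^ (E1 + 1) := by ring
  have hz1 : 1 ≤ z := by
    have : (1 : ℝ) ≤ z := hL1B.trans hzlo
    exact_mod_cast this
  have hz0 : (0 : ℝ) < z := by linarith
  have hV := c3 z hz1 hzhi
  refine ⟨z, (pow_le_pow_right₀ hL1 (by rw [hE1]; exact le_max_left _ _)).trans hzlo, hzhi, ?_⟩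
  have hss : √(N : ℝ) * √(N : ℝ) = N := Real.mul_self_sqrt hN0.le
  have hs0 : 0 < √(N : ℝ) := Real.sqrt_pos.2 hN0
  have hlogX : Real.log X ≤ 2 * L := by rw [hlogX']; linarith
  have hlogX0 : 0 ≤ Real.log X := Real.log_natCast_nonneg X
  have hsX : √(X : ℝ) ≤ C * √N := by
    rw [hXr, Real.sqrt_mul (by linarith)]
    apply mul_le_mul_of_nonneg_right _ hs0.le
    rw [Real.sqrt_le_left (by linarith)]
    nlinarith
  obtain ⟨T, hT⟩ : ∃ T, T = (N : ℝ) / L ^ (U + 1) := ⟨_, rfl⟩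
  have hT0 : 0 < T := by rw [hT]; positivity
  have hTL : T * L = N / L ^ U := by rw [hT, pow_succ]; field_simp
  have hT2 : (N : ℝ) / L ^ (U + 2) ≤ T := by
    rw [hT]
    exact div_le_div_of_nonneg_left hN0.le (by positivity) (pow_le_pow_right₀ hL1 (by omega))
  have hsT : √(N : ℝ) * L ^ (k + 3) ≤ T := by
    rw [hT, le_div_iff₀ (by positivity)]
    calc √(N : ℝ) * L ^ (k + 3) * L ^ (U + 1) = √(N : ℝ) * L ^ (U + k + 4) := by rw [mul_assoc, ← pow_add]; congr 2; ring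
      _ ≤ √(N : ℝ) * L ^ (U + k + 5) := mul_le_mul_of_nonneg_left (pow_le_pow_right₀ hL1 (by omega)) hs0.le
      _ ≤ √(N : ℝ) * √(N : ℝ) := mul_le_mul_of_nonneg_left c4 hs0.le
      _ = N := hss
  have hcC : ∀ i, c i + 2 ≤ C := by
    intro i
    have := single_le_sum (f := c) (s := univ) (fun _ _ => Nat.zero_le _) (mem_univ i)
    omega
  intro h hh2 hnd hD
  refine ⟨hnd, ?_⟩
  obtain ⟨Sg, g1, g2⟩ := limL c h hc hnd
  refine ⟨Sg, g1, ?_⟩
  have e1 := toPrimesL c h hc N X hN1 (by rw [hX]; exact Nat.le_mul_of_pos_left _ (by omega)) (fun i n hn => by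
    rw [mem_Icc] at hn
    have q1 : c i * n ≤ c i * N := Nat.mul_le_mul_left _ hn.2
    have q2 := hh2 i
    have q3 : (c i + 2) * N ≤ C * N := Nat.mul_le_mul_right _ (hcC i)
    have q4 : (c i + 2) * N = c i * N + 2 * N := by ring
    omega) (2 * L) (by linarith) hlogX
  have e4 := c2 z hz1 hzhi h
  -- the singular series
  have hbad := card_badL c h (C * (2 * N)) (fun i => (hh2 i).trans (Nat.le_mul_of_pos_left _ (by omega)))
    (fun i j => Nat.mul_le_mul (by have := hcC i; omega) (hh2 j))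
  have hK : KL c h ≤ L ^ 2 := by
    have q1 : (Nat.log 2 (C * (2 * N)) : ℝ) ≤ 4 * (Real.log C + 1) * L := by
      have q2 : (Nat.log 2 (C * (2 * N)) : ℝ) ≤ Real.log ((C * (2 * N) : ℕ) : ℝ) / Real.log 2 := by
        have := Real.natLog_le_logb (C * (2 * N)) 2
        simpa [Real.logb] using this
      have q3 : Real.log ((C * (2 * N) : ℕ) : ℝ) = Real.log C + (Real.log 2 + L) := by
        push_cast
        rw [Real.log_mul (by linarith) (by positivity), Real.log_mul (by norm_num) hN0.ne', hLd]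
      rw [q3] at q2
      refine q2.trans ?_
      have q4 := Real.log_two_gt_d9
      have q5 := Real.log_two_lt_d9
      rw [div_le_iff₀ (by linarith)]
      have q6 : 4 * (Real.log C + 1) * L * (1 / 2) ≤ 4 * (Real.log C + 1) * L * Real.log 2 := by
        apply mul_le_mul_of_nonneg_left (by linarith) (by positivity)
      have q7 : Real.log C ≤ Real.log C * L := le_mul_of_one_le_right hlC hL1
      nlinarith
    have q8 : ((badL c h).card : ℝ) ≤ (k + k * k) * (4 * (Real.log C + 1)) * L := by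
      have q9 : ((badL c h).card : ℝ) ≤ (k + k * k) * (Nat.log 2 (C * (2 * N)) : ℝ) := by exact_mod_cast hbad
      refine q9.trans ?_
      rw [mul_assoc ((k : ℝ) + k * k)]
      exact mul_le_mul_of_nonneg_left q1 (by positivity)
    have q10 : KL c h ≤ (((k + 1 : ℕ) : ℝ) ^ 2 + 4 * ((k + 1 : ℕ) : ℝ) * ((k + k * k) * (4 * (Real.log C + 1)))) * L := by
      unfold KL
      have q11 : ((k + 1 : ℕ) : ℝ) ^ 2 ≤ ((k + 1 : ℕ) : ℝ) ^ 2 * L := le_mul_of_one_le_right (by positivity) hL1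
      have q12 : 4 * ((k + 1 : ℕ) : ℝ) * ((badL c h).card : ℝ) ≤
          4 * ((k + 1 : ℕ) : ℝ) * ((k + k * k) * (4 * (Real.log C + 1)) * L) :=
        mul_le_mul_of_nonneg_left q8 (by positivity)
      linarith
    refine q10.trans ?_
    rw [sq L]
    apply mul_le_mul_of_nonneg_right _ hL0.le
    linarith
  have hKz : KL c h ≤ z := by
    refine hK.trans (le_trans ?_ hzlo)
    exact pow_le_pow_right₀ hL1 (by rw [hE1]; exact le_trans (by omega) (le_max_right _ _))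
  have hLz : L ≤ z := by
    refine le_trans ?_ hzlo
    calc L = L ^ 1 := (pow_one L).symm
      _ ≤ L ^ E1 := pow_le_pow_right₀ hL1 (by rw [hE1]; exact le_trans (by omega) (le_max_right _ _))
  have g3 := g2 z (by
    have : ((3 * (k + 1) : ℕ) : ℝ) ≤ z := by
      push_cast
      linarith
    exact_mod_cast this) (fun i => by
    have q1 : ((c i : ℕ) : ℝ) ≤ C := by exact_mod_cast (by have := hcC i; omega : c i ≤ C)
    have : ((c i : ℕ) : ℝ) ≤ z := by linarith
    exact_mod_cast this) hKz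
  have hsgle : sgL c h z ≤ L ^ k := sgL_le c h z L hV
  have hsg0 := sgL_nonneg c h z
  have g4 : |Sg - sgL c h z| ≤ 1 / L ^ (U + 2) := by
    refine g3.trans ?_
    have hzU : L ^ (U + k + 4) ≤ z :=
      le_trans (pow_le_pow_right₀ hL1 (by rw [hE1]; exact le_trans (by omega) (le_max_right _ _))) hzlo
    have hKL0 : 0 ≤ KL c h := by unfold KL; positivity
    calc sgL c h z * (KL c h / z) ≤ L ^ k * (L ^ 2 / L ^ (U + k + 4)) := by
          apply mul_le_mul hsgle _ (by positivity) (by positivity)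
          exact div_le_div₀ (by positivity) hK (by positivity) hzU
      _ = 1 / L ^ (U + 2) := by
          rw [show U + k + 4 = (U + 2) + k + 2 by ring, pow_add, pow_add L (U + 2) k]
          field_simp
  -- together
  have e2 : ∑ n ∈ Icc 1 N, ArithmeticFunction.vonMangoldt n *
      (∏ i, ArithmeticFunction.vonMangoldt (c i * n + h i) - ∏ i, lamz z (c i * n + h i)) =
      ∑ n ∈ Icc 1 N, ArithmeticFunction.vonMangoldt n * ∏ i, ArithmeticFunction.vonMangoldt (c i * n + h i) -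
      ∑ n ∈ Icc 1 N, ArithmeticFunction.vonMangoldt n * ∏ i, lamz z (c i * n + h i) := by
    rw [← sum_sub_distrib]
    apply sum_congr rfl
    intro n _
    rw [mul_sub]
  rw [e2] at hD
  have g5 : ((k : ℝ) + 1) * (2 * L) ^ (k + 1) * (2 * √(X : ℝ) * Real.log X) ≤
      (((k : ℝ) + 1) * 2 ^ (k + 1) * (4 * C)) * T := by
    calc ((k : ℝ) + 1) * (2 * L) ^ (k + 1) * (2 * √(X : ℝ) * Real.log X) ≤
        ((k : ℝ) + 1) * (2 * L) ^ (k + 1) * (2 * (C * √N) * (2 * L)) := by gcongr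
      _ = (((k : ℝ) + 1) * 2 ^ (k + 1) * (4 * C)) * (√N * L ^ (k + 2)) := by rw [mul_pow]; ring
      _ ≤ (((k : ℝ) + 1) * 2 ^ (k + 1) * (4 * C)) * T := by
          apply mul_le_mul_of_nonneg_left _ (by positivity)
          refine le_trans ?_ hsT
          apply mul_le_mul_of_nonneg_left _ hs0.le
          exact pow_le_pow_right₀ hL1 (by omega)
  have g6 : |Sg * N - sgL c h z * N| ≤ T := by
    rw [← sub_mul, abs_mul, abs_of_nonneg hN0.le]
    calc |Sg - sgL c h z| * N ≤ 1 / L ^ (U + 2) * N := mul_le_mul_of_nonneg_right g4 hN0.le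
      _ = N / L ^ (U + 2) := by ring
      _ ≤ T := hT2
  have g7 : (((k : ℝ) + 1) * 2 ^ (k + 1) * (4 * C)) * T + T + T ≤ (1 / 2) * (N / L ^ U) := by
    rw [← hTL]
    have q1 : ((((k : ℝ) + 1) * 2 ^ (k + 1) * (4 * C)) + 2) ≤ L / 2 := by linarith
    nlinarith
  have g8 : 0 ≤ (N : ℝ) / L ^ U := by positivity
  rw [abs_le] at e1 hD e4 g6 ⊢
  constructor <;> linarith [e1.1, e1.2, hD.1, hD.2, e4.1, e4.2, g6.1, g6.2]

lemma few_coordS {k : ℕ} (I : Fin k → Finset ℕ) (i : Fin k) (R : (Fin k → ℕ) → Prop) [DecidablePred R]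
    (hR : ∀ m, ∀ v ∈ I i, ∀ w ∈ I i, R (Function.update m i v) → R (Function.update m i w) → v = w) :
    ((I i).card : ℝ) * (((Fintype.piFinset I).filter R).card : ℝ) ≤ ∏ j, ((I j).card : ℝ) := by
  have h1 := avg_coord I i (fun m => if R m then (1 : ℝ) else 0)
  have h2 : ∑ m ∈ Fintype.piFinset I, (if R m then (1 : ℝ) else 0) = (((Fintype.piFinset I).filter R).card : ℝ) := by
    rw [← sum_filter, sum_const, nsmul_eq_mul, mul_one]
  rw [h2] at h1
  rw [← h1]
  calc ∑ m ∈ Fintype.piFinset I, ∑ v ∈ I i, (if R (Function.update m i v) then (1 : ℝ) else 0)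
      ≤ ∑ _m ∈ Fintype.piFinset I, (1 : ℝ) := by
        refine sum_le_sum fun m _ => ?_
        rw [← sum_filter, sum_const, nsmul_eq_mul, mul_one]
        have h3 : ((I i).filter (fun v => R (Function.update m i v))).card ≤ 1 := by
          rw [card_le_one]
          intro a ha b hb
          rw [mem_filter] at ha hb
          exact hR m a ha.1 b hb.1 ha.2 hb.2
        exact_mod_cast h3
    _ = _ := by
        rw [sum_const, nsmul_eq_mul, mul_one, Fintype.card_piFinset]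
        push_cast
        rfl

open Classical in
/-- the degenerate vectors are few -/
lemma few_degS {k : ℕ} (c : Fin k → ℕ) (hc : ∀ i, 1 ≤ c i) (I : Fin k → Finset ℕ) (J : ℝ) (hJ0 : 0 < J)
    (hJ : ∀ i, J ≤ (I i).card) :
    J * (((Fintype.piFinset I).filter (fun h => ¬ NonDeg c h)).card : ℝ) ≤ ((k : ℝ) + k * k) * ∏ j, ((I j).card : ℝ) := by
  have hsub : (Fintype.piFinset I).filter (fun m => ¬ NonDeg c m) ⊆
      (univ.biUnion fun i => (Fintype.piFinset I).filter (fun m => m i = 0)) ∪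
      (univ.filter (fun t : Fin k × Fin k => t.1 ≠ t.2)).biUnion fun t =>
        (Fintype.piFinset I).filter (fun m => c t.1 * m t.2 = c t.2 * m t.1) := by
    intro m hm
    rw [mem_filter] at hm
    rw [mem_union, mem_biUnion, mem_biUnion]
    by_contra hcon
    rw [not_or] at hcon
    push Not at hcon
    apply hm.2
    constructor
    · intro i
      have h1 := hcon.1 i (mem_univ i)
      rw [mem_filter, not_and] at h1
      have := h1 hm.1
      omega
    · intro i j hij h5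
      have h1 := hcon.2 (i, j) (by simpa using hij)
      rw [mem_filter, not_and] at h1
      apply h1 hm.1
      exact_mod_cast h5
  have hP0 : 0 ≤ ∏ j, ((I j).card : ℝ) := prod_nonneg fun _ _ => Nat.cast_nonneg _
  have h1 : ∀ i ∈ (univ : Finset (Fin k)), J *
      (((Fintype.piFinset I).filter (fun m => m i = 0)).card : ℝ) ≤ ∏ j, ((I j).card : ℝ) := by
    intro i _
    refine (mul_le_mul_of_nonneg_right (hJ i) (Nat.cast_nonneg _)).trans (few_coordS I i (fun m => m i = 0) ?_)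
    intro m v _ w _ h2 h3
    simp only [Function.update_self] at h2 h3
    rw [h2, h3]
  have h2 : ∀ t ∈ univ.filter (fun t : Fin k × Fin k => t.1 ≠ t.2), J *
      (((Fintype.piFinset I).filter (fun m => c t.1 * m t.2 = c t.2 * m t.1)).card : ℝ) ≤ ∏ j, ((I j).card : ℝ) := by
    intro t ht
    rw [mem_filter] at ht
    refine (mul_le_mul_of_nonneg_right (hJ t.1) (Nat.cast_nonneg _)).trans
      (few_coordS I t.1 (fun m => c t.1 * m t.2 = c t.2 * m t.1) ?_)
    intro m v _ w _ h2 h3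
    simp only [Function.update_self, Function.update_of_ne ht.2.symm] at h2 h3
    have h4 : c t.2 * v = c t.2 * w := h2.symm.trans h3
    exact Nat.eq_of_mul_eq_mul_left (by have := hc t.2; omega) h4
  have h3 := card_le_card hsub
  have h4 := h3.trans (card_union_le _ _)
  have h5 := h4.trans (add_le_add card_biUnion_le card_biUnion_le)
  have h6 : (((Fintype.piFinset I).filter (fun m => ¬ NonDeg c m)).card : ℝ) ≤
      ∑ i, (((Fintype.piFinset I).filter (fun m => m i = 0)).card : ℝ) +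
      ∑ t ∈ univ.filter (fun t : Fin k × Fin k => t.1 ≠ t.2), (((Fintype.piFinset I).filter (fun m =>
          c t.1 * m t.2 = c t.2 * m t.1)).card : ℝ) := by
    exact_mod_cast h5
  calc J * _ ≤ J * (∑ i, (((Fintype.piFinset I).filter (fun m => m i = 0)).card : ℝ) +
      ∑ t ∈ univ.filter (fun t : Fin k × Fin k => t.1 ≠ t.2), (((Fintype.piFinset I).filter (fun m =>
          c t.1 * m t.2 = c t.2 * m t.1)).card : ℝ)) := mul_le_mul_of_nonneg_left h6 hJ0.le
    _ ≤ ∑ _i : Fin k, (∏ j, ((I j).card : ℝ)) + ∑ _t ∈ univ.filter (fun t : Fin k × Fin k => t.1 ≠ t.2), (∏ j, ((I j).card : ℝ)) := by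
        rw [mul_add, mul_sum, mul_sum]
        exact add_le_add (sum_le_sum h1) (sum_le_sum h2)
    _ ≤ ((k : ℝ) + k * k) * ∏ j, ((I j).card : ℝ) := by
        rw [sum_const, sum_const, nsmul_eq_mul, nsmul_eq_mul, card_univ, Fintype.card_fin, add_mul]
        apply add_le_add le_rfl
        apply mul_le_mul_of_nonneg_right _ hP0
        have h7 : (univ.filter (fun t : Fin k × Fin k => t.1 ≠ t.2)).card ≤ k * k := by
          refine (card_filter_le _ _).trans ?_
          rw [card_univ, Fintype.card_prod, Fintype.card_fin]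
        exact_mod_cast h7

/-- the diagonal solutions -/
lemma energy_ge (t : ℕ) (S : Finset ℕ) : S.card ^ t ≤ energy t S := by
  unfold energy
  have h1 : S.card ^ t = ((Fintype.piFinset (fun _ : Fin t => S)).image (fun v => (v, v))).card := by
    rw [card_image_of_injective _ (fun a b h => (Prod.mk.inj h).1), Fintype.card_piFinset, prod_const, card_univ,
      Fintype.card_fin]
  rw [h1]
  apply card_le_card
  intro x hx
  rw [mem_image] at hx
  obtain ⟨v, hv, rfl⟩ := hx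
  rw [mem_filter, mem_product]
  exact ⟨⟨hv, hv⟩, rfl⟩

/-- the sets are not too small -/
lemma thin_card {t T N q B a : ℕ} {I : Finset ℕ} (hI : Thin t T N q I) (hne : I.Nonempty) (ht : 1 ≤ t) (hN : 1 ≤ N)
    (hL : 1 ≤ Real.log N) (hq : (q : ℝ) * Real.log N ^ (t * a + T) ≤ N) : Real.log N ^ a ≤ (I.card : ℝ) := by
  have hN0 : (0 : ℝ) < N := by exact_mod_cast hN
  have hc0 : (0 : ℝ) < I.card := by exact_mod_cast hne.card_pos
  have h1 : ((I.card : ℝ)) ^ t ≤ energy t I := by exact_mod_cast energy_ge t I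
  have h2 := h1.trans hI.few
  obtain ⟨L, hLd⟩ : ∃ L, L = Real.log (N : ℝ) := ⟨_, rfl⟩
  rw [← hLd] at hL hq h2 ⊢
  have hL0 : 0 < L := by linarith
  rcases Nat.eq_zero_or_pos q with h0 | h0
  · exfalso
    rw [h0] at h2
    have : 0 < (I.card : ℝ) ^ t := by positivity
    simp at h2
    linarith
  have hq0 : (0 : ℝ) < q := by exact_mod_cast h0
  rw [le_div_iff₀ hN0, two_mul, pow_add] at h2
  have h3 : (N : ℝ) ≤ (I.card : ℝ) ^ t * q * L ^ T := by
    have h4 : (I.card : ℝ) ^ t * N ≤ (I.card : ℝ) ^ t * ((I.card : ℝ) ^ t * q * L ^ T) := by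
      refine h2.trans (le_of_eq ?_)
      ring
    exact le_of_mul_le_mul_left h4 (by positivity)
  have h5 : (L ^ a) ^ t ≤ (I.card : ℝ) ^ t := by
    have h6 : (q : ℝ) * L ^ T * (L ^ a) ^ t ≤ q * L ^ T * (I.card : ℝ) ^ t := by
      refine le_trans (le_of_eq ?_) (hq.trans (h3.trans (le_of_eq ?_)))
      · rw [← pow_mul, mul_comm a t, pow_add]
        ring
      · ring
    exact le_of_mul_le_mul_left h6 (by positivity)
  exact le_of_pow_le_pow_left₀ (by omega) hc0.le h5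

open Classical in
/-- **systems of linear forms with the shifts in arbitrary sets** -/
theorem thin_main {k : ℕ} (c : Fin k → ℕ) (hc : ∀ i, 1 ≤ c i) (A U t T : ℕ) (ht : 1 ≤ t) : ∃ B N₀ : ℕ, ∀ N : ℕ, N₀ ≤ N →
    ∀ Q : ℕ, (Q : ℝ) * Real.log N ^ B ≤ N → ∃ S : Finset ℕ, (S.card : ℝ) ≤ Q / Real.log N ^ A ∧
      ∀ q ∈ Ioc Q (2 * Q), q ∉ S → ∀ I : Fin k → Finset ℕ, (∀ i, Thin t T N q (I i)) →
      (((Fintype.piFinset I).filter (fun h => ¬ GoodL U N c h)).card : ℝ) ≤
        (∏ i, ((I i).card : ℝ)) / Real.log N ^ A := by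
  obtain ⟨B₁, hB₁⟩ := thin_diff c hc A (U + A + 4) t T ht
  obtain ⟨E1, hE1, N₂, h2⟩ := det_L c hc U B₁
  obtain ⟨N₁, h1⟩ := hB₁ (E1 + 1)
  obtain ⟨N₃, h3⟩ := ev_L' (4 * ((k : ℝ) + k * k) + 100)
  refine ⟨B₁ + t * (A + 4) + T + 5, N₁ + N₂ + N₃ + 3, fun N hN Q hQ => ?_⟩
  have hN1 : 1 ≤ N := by omega
  have hN0 : (0 : ℝ) < N := by exact_mod_cast hN1
  have c1 := h1 N (by omega)
  have c3 := h3 N (by omega)
  obtain ⟨z, hz1, hz2, hdet⟩ := h2 N (by omega)
  have hcard := fun (q : ℕ) (I : Finset ℕ) (hI : Thin t T N q I) (hne : I.Nonempty) (hl : 1 ≤ Real.log N)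
    (hq : (q : ℝ) * Real.log N ^ (t * (A + 4) + T) ≤ N) => thin_card (B := 0) hI hne ht hN1 hl hq
  obtain ⟨L, hLd⟩ : ∃ L, L = Real.log (N : ℝ) := ⟨_, rfl⟩
  rw [← hLd] at c1 c3 hz1 hz2 hQ hdet hcard ⊢
  have p2 : 0 ≤ 4 * ((k : ℝ) + k * k) := by positivity
  have hL100 : 100 ≤ L := by linarith
  have hL0 : 0 < L := by linarith
  have hL1 : 1 ≤ L := by linarith
  obtain ⟨S, hS1, hS2⟩ := c1 z hz1 hz2 Q ((mul_le_mul_of_nonneg_left (pow_le_pow_right₀ hL1 (by omega))
    (Nat.cast_nonneg _)).trans hQ)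
  refine ⟨S, hS1, fun q hqQ hqS I hI => ?_⟩
  have hd := hS2 q hqQ hqS I hI
  have hq1 : 1 ≤ q := by rw [mem_Ioc] at hqQ; omega
  have hq0 : (0 : ℝ) < q := by exact_mod_cast hq1
  obtain ⟨Pr, hPr⟩ : ∃ Pr, Pr = ∏ i, ((I i).card : ℝ) := ⟨_, rfl⟩
  have hPr0 : 0 ≤ Pr := by rw [hPr]; exact prod_nonneg fun _ _ => Nat.cast_nonneg _
  rw [← hPr] at hd ⊢
  by_cases hne : ∀ i, (I i).Nonempty
  swap
  · push Not at hne
    obtain ⟨i, hi⟩ := hne
    have : Fintype.piFinset I = ∅ := by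
      apply eq_empty_of_forall_notMem
      intro h hh
      rw [Fintype.mem_piFinset] at hh
      have h1 := hh i
      rw [hi] at h1
      exact absurd h1 (notMem_empty _)
    rw [this, filter_empty, card_empty, Nat.cast_zero]
    positivity
  have hJ : ∀ i, L ^ (A + 4) ≤ ((I i).card : ℝ) := by
    intro i
    refine hcard q (I i) (hI i) (hne i) hL1 ?_
    rw [mem_Ioc] at hqQ
    have e1 : (q : ℝ) ≤ 2 * Q := by exact_mod_cast hqQ.2
    calc (q : ℝ) * L ^ (t * (A + 4) + T) ≤ 2 * Q * L ^ (t * (A + 4) + T) := mul_le_mul_of_nonneg_right e1 (by positivity)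
      _ = Q * (2 * L ^ (t * (A + 4) + T)) := by ring
      _ ≤ Q * (L * L ^ (t * (A + 4) + T)) := by
          apply mul_le_mul_of_nonneg_left _ (Nat.cast_nonneg _)
          exact mul_le_mul_of_nonneg_right (by linarith) (by positivity)
      _ = Q * L ^ (t * (A + 4) + T + 1) := by ring
      _ ≤ Q * L ^ (B₁ + t * (A + 4) + T + 5) := mul_le_mul_of_nonneg_left (pow_le_pow_right₀ hL1 (by omega)) (Nat.cast_nonneg _)
      _ ≤ N := hQ
  obtain ⟨D, hDd⟩ : ∃ D : (Fin k → ℕ) → ℝ, D = fun h => |∑ n ∈ Icc 1 N, ArithmeticFunction.vonMangoldt n *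
        (∏ i, ArithmeticFunction.vonMangoldt (c i * n + h i) - ∏ i, lamz z (c i * n + h i))| := ⟨_, rfl⟩
  have hsub : (Fintype.piFinset I).filter (fun h => ¬ GoodL U N c h) ⊆
      (Fintype.piFinset I).filter (fun h => ¬ NonDeg c h) ∪
      (Fintype.piFinset I).filter (fun h => (1 / 4) * (N / L ^ U) < D h) := by
    intro m hm
    rw [mem_filter] at hm
    rw [mem_union, mem_filter, mem_filter]
    by_cases hnd : NonDeg c m
    · right
      refine ⟨hm.1, ?_⟩
      by_contra hcon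
      rw [not_lt, hDd] at hcon
      refine hm.2 (hdet m (fun i => ?_) hnd hcon)
      have e1 := (hI i).le _ (Fintype.mem_piFinset.1 hm.1 i)
      omega
    · left
      exact ⟨hm.1, hnd⟩
  have hb1 : (((Fintype.piFinset I).filter (fun h => ¬ NonDeg c h)).card : ℝ) ≤ Pr / L ^ A / 2 := by
    have e1 := few_degS c hc I (L ^ (A + 4)) (by positivity) hJ
    rw [← hPr] at e1
    have e2 : (((Fintype.piFinset I).filter (fun h => ¬ NonDeg c h)).card : ℝ) ≤ ((k : ℝ) + k * k) * Pr / L ^ (A + 4) := by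
      rw [le_div_iff₀ (by positivity), mul_comm]
      exact e1
    refine e2.trans ?_
    calc ((k : ℝ) + k * k) * Pr / L ^ (A + 4) = (4 * ((k : ℝ) + k * k) / L) * (Pr / L ^ A) / (4 * L ^ 3) := by
          rw [show A + 4 = A + 1 + 3 by ring, pow_add, pow_succ]
          field_simp
      _ ≤ 1 * (Pr / L ^ A) / 2 := by
          apply div_le_div₀ (by positivity) _ (by norm_num) _
          · apply mul_le_mul_of_nonneg_right _ (by positivity)
            rw [div_le_one hL0]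
            linarith
          · have : 1 ≤ L ^ 3 := one_le_pow₀ hL1
            linarith
      _ = _ := by rw [one_mul]
  have hb2 : (((Fintype.piFinset I).filter (fun h => (1 / 4) * (N / L ^ U) < D h)).card : ℝ) ≤ Pr / L ^ A / 2 := by
    have e1 : (((Fintype.piFinset I).filter (fun h => (1 / 4) * (N / L ^ U) < D h)).card : ℝ) *
        ((1 / 4) * (N / L ^ U)) ≤ N * Pr / L ^ (U + A + 4) := by
      refine le_trans ?_ hd
      calc _ = ∑ _m ∈ (Fintype.piFinset I).filter (fun h => (1 / 4) * (N / L ^ U) < D h),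
            (1 / 4) * ((N : ℝ) / L ^ U) := by rw [sum_const, nsmul_eq_mul]
        _ ≤ ∑ m ∈ (Fintype.piFinset I).filter (fun h => (1 / 4) * (N / L ^ U) < D h), D m :=
            sum_le_sum fun m hm => (mem_filter.1 hm).2.le
        _ ≤ ∑ m ∈ Fintype.piFinset I, D m := by
            apply sum_le_sum_of_subset_of_nonneg (filter_subset _ _)
            intro m _ _
            rw [hDd]
            exact abs_nonneg _
        _ = _ := by rw [hDd]
    have e2 : (N : ℝ) * Pr / L ^ (U + A + 4) = (Pr / L ^ A / 2 * (8 / L ^ 4)) * ((1 / 4) * (N / L ^ U)) := by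
      rw [pow_add, pow_add]
      field_simp
      ring
    rw [e2] at e1
    have e3 := le_of_mul_le_mul_right e1 (by positivity)
    refine e3.trans ?_
    apply mul_le_of_le_one_right (by positivity)
    rw [div_le_one (by positivity)]
    calc (8 : ℝ) ≤ L ^ 1 := by rw [pow_one]; linarith
      _ ≤ L ^ 4 := pow_le_pow_right₀ hL1 (by norm_num)
  have hfin := (card_le_card hsub).trans (card_union_le _ _)
  have hfin' := (Nat.cast_le (α := ℝ)).2 hfin
  rw [Nat.cast_add] at hfin'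
  have hb3 := add_le_add hb1 hb2
  rw [add_halves] at hb3
  exact hfin'.trans hb3

open Classical in
/-- **all the forms prime** -/
theorem thin_count {k : ℕ} (c : Fin k → ℕ) (hc : ∀ i, 1 ≤ c i) : ∃ κ : ℝ, 0 < κ ∧ ∀ (A t T : ℕ) (ε : ℝ), 1 ≤ t → 0 < ε →
    ∃ B N₀ : ℕ, ∀ N : ℕ, N₀ ≤ N → ∀ Q : ℕ,
    (Q : ℝ) * Real.log N ^ B ≤ N → ∃ S : Finset ℕ, (S.card : ℝ) ≤ Q / Real.log N ^ A ∧
      ∀ q ∈ Ioc Q (2 * Q), q ∉ S → ∀ I : Fin k → Finset ℕ, (∀ i, Thin t T N q (I i)) →
      (((Fintype.piFinset I).filter (fun h => ¬ GoodC ε κ N c h)).card : ℝ) ≤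
        (∏ i, ((I i).card : ℝ)) / Real.log N ^ A := by
  obtain ⟨κ, hκ, hlow⟩ := sgL_low k
  refine ⟨κ, hκ, fun A t T ε ht hε => ?_⟩
  obtain ⟨C, hC⟩ : ∃ C, C = 2 + ∑ i, c i := ⟨_, rfl⟩
  obtain ⟨B₁, N₁, h1⟩ := thin_main c hc A 2 t T ht
  obtain ⟨N₃, h3⟩ := cnt_det (k := k) C ε hε κ hκ hlow
  refine ⟨B₁, N₁ + N₃ + 3, fun N hN Q hQ => ?_⟩
  have c1 := h1 N (by omega) Q
  have c3 := h3 N (by omega)
  obtain ⟨S₁, a1, a2⟩ := c1 hQ
  refine ⟨S₁, a1, fun q hqQ hqS I hI => ?_⟩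
  refine le_trans ((Nat.cast_le (α := ℝ)).2 (card_le_card ?_)) (a2 q hqQ hqS I hI)
  have hcC : ∀ i, c i + 2 ≤ C := by
    intro i
    have := single_le_sum (f := c) (s := univ) (fun _ _ => Nat.zero_le _) (mem_univ i)
    omega
  intro h hh
  rw [mem_filter] at hh ⊢
  refine ⟨hh.1, fun hcon => hh.2 (c3 c h hc hcC (fun i => ?_) hcon)⟩
  have e1 := (hI i).le _ (Fintype.mem_piFinset.1 hh.1 i)
  omega

open Classical in
/-- **the last form composite** -/
theorem thin_exact {k : ℕ} (c : Fin (k + 1) → ℕ) (hc : ∀ i, 1 ≤ c i) : ∃ κ : ℝ, 0 < κ ∧ ∀ (A t T : ℕ) (ε : ℝ), 1 ≤ t →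
    0 < ε → ∃ B N₀ : ℕ, ∀ N : ℕ, N₀ ≤ N → ∀ Q : ℕ,
    (Q : ℝ) * Real.log N ^ B ≤ N → ∃ S : Finset ℕ, (S.card : ℝ) ≤ Q / Real.log N ^ A ∧
      ∀ q ∈ Ioc Q (2 * Q), q ∉ S → ∀ I : Fin (k + 1) → Finset ℕ, (∀ i, Thin t T N q (I i)) →
      (((Fintype.piFinset I).filter (fun h => ¬ GoodX ε κ N c h)).card : ℝ) ≤
        (∏ i, ((I i).card : ℝ)) / Real.log N ^ A := by
  obtain ⟨κ, hκ, hlow⟩ := sgL_low k
  refine ⟨κ, hκ, fun A t T ε ht hε => ?_⟩
  obtain ⟨C, hC⟩ : ∃ C, C = 2 + ∑ i, c i := ⟨_, rfl⟩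
  obtain ⟨B₁, N₁, h1⟩ := thin_main c hc (A + 1) 2 t T ht
  obtain ⟨B₂, N₂, h2⟩ := thin_main (ini c) (fun i => hc _) (A + 1) 2 t T ht
  obtain ⟨N₃, h3⟩ := exact_det (k := k) C ε hε κ hκ hlow
  obtain ⟨N₄, h4⟩ := ev_L' 2
  refine ⟨B₁ + B₂, N₁ + N₂ + N₃ + N₄ + 3, fun N hN Q hQ => ?_⟩
  have hN0 : (0 : ℝ) < N := by exact_mod_cast (by omega : 0 < N)
  have c1 := h1 N (by omega) Q
  have c2 := h2 N (by omega) Q
  have c3 := h3 N (by omega)
  have c4 := h4 N (by omega)
  obtain ⟨L, hLd⟩ : ∃ L, L = Real.log (N : ℝ) := ⟨_, rfl⟩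
  rw [← hLd] at c1 c2 c4 hQ ⊢
  have hL0 : 0 < L := by linarith
  have hL1 : 1 ≤ L := by linarith
  obtain ⟨S₁, a1, a2⟩ := c1 ((mul_le_mul_of_nonneg_left (pow_le_pow_right₀ hL1 (by omega)) (Nat.cast_nonneg _)).trans hQ)
  obtain ⟨S₂, b1, b2⟩ := c2 ((mul_le_mul_of_nonneg_left (pow_le_pow_right₀ hL1 (by omega)) (Nat.cast_nonneg _)).trans hQ)
  have hhalf : ∀ x : ℝ, 0 ≤ x → x / L ^ (A + 1) ≤ x / L ^ A / 2 := by
    intro x hx
    rw [pow_succ, ← div_div]
    exact div_le_div_of_nonneg_left (by positivity) (by norm_num) c4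
  refine ⟨S₁ ∪ S₂, ?_, fun q hqQ hqS I hI => ?_⟩
  · have e1 : (((S₁ ∪ S₂).card : ℕ) : ℝ) ≤ S₁.card + S₂.card := by exact_mod_cast card_union_le _ _
    have e2 := hhalf Q (Nat.cast_nonneg _)
    linarith
  rw [mem_union, not_or] at hqS
  have d1 := a2 q hqQ hqS.1 I hI
  have d2 := b2 q hqQ hqS.2 (fun i : Fin k => I i.castSucc) (fun i => hI _)
  have hcC : ∀ i, c i + 2 ≤ C := by
    intro i
    have := single_le_sum (f := c) (s := univ) (fun _ _ => Nat.zero_le _) (mem_univ i)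
    omega
  have hcard : ((Fintype.piFinset I).filter (fun h => ¬ GoodX ε κ N c h)).card ≤
      ((Fintype.piFinset I).filter (fun h => ¬ GoodL 2 N c h)).card +
      ((Fintype.piFinset I).filter (fun h => ¬ GoodL 2 N (ini c) (ini h))).card := by
    refine (card_le_card ?_).trans (card_union_le _ _)
    intro m hm
    rw [mem_filter] at hm
    rw [mem_union, mem_filter, mem_filter]
    by_contra hcon
    rw [not_or, not_and, not_and, not_not, not_not] at hcon
    obtain ⟨f1, f2⟩ := hcon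
    apply hm.2
    refine c3 c m hc hcC (fun i => ?_) (f1 hm.1) (f2 hm.1)
    have e1 := (hI i).le _ (Fintype.mem_piFinset.1 hm.1 i)
    omega
  have d3 : ((Fintype.piFinset I).filter (fun h => ¬ GoodL 2 N (ini c) (ini h))).card ≤
      ((Fintype.piFinset (fun i : Fin k => I i.castSucc)).filter (fun h => ¬ GoodL 2 N (ini c) h)).card *
        (I (Fin.last k)).card := by
    have g1 : (Fintype.piFinset I).filter (fun h => ¬ GoodL 2 N (ini c) (ini h)) ⊆
        (((Fintype.piFinset (fun i : Fin k => I i.castSucc)).filter (fun h => ¬ GoodL 2 N (ini c) h)) ×ˢ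
          I (Fin.last k)).image (fun t : (Fin k → ℕ) × ℕ => (Fin.snoc t.1 t.2 : Fin (k + 1) → ℕ)) := by
      intro m hm
      rw [mem_filter, Fintype.mem_piFinset] at hm
      rw [mem_image]
      refine ⟨(ini m, m (Fin.last k)), ?_, ?_⟩
      · rw [mem_product, mem_filter, Fintype.mem_piFinset]
        exact ⟨⟨fun i => hm.1 _, hm.2⟩, hm.1 _⟩
      · simp only
        exact Fin.snoc_init_self m
    refine (card_le_card g1).trans (card_image_le.trans ?_)
    rw [card_product]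
  have hprod : ∏ i, ((I i).card : ℝ) = (∏ i : Fin k, ((I i.castSucc).card : ℝ)) * ((I (Fin.last k)).card : ℝ) :=
    Fin.prod_univ_castSucc _
  obtain ⟨P1, hP1⟩ : ∃ P1, P1 = ∏ i : Fin k, ((I i.castSucc).card : ℝ) := ⟨_, rfl⟩
  obtain ⟨P, hP⟩ : ∃ P, P = ∏ i, ((I i).card : ℝ) := ⟨_, rfl⟩
  have hP0 : 0 ≤ P := by rw [hP]; exact prod_nonneg fun _ _ => Nat.cast_nonneg _
  rw [← hP, ← hP1] at hprod
  rw [← hP] at d1 ⊢
  rw [← hP1] at d2
  have d4 : (((Fintype.piFinset I).filter (fun h => ¬ GoodX ε κ N c h)).card : ℝ) ≤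
      P / L ^ (A + 1) + (P1 / L ^ (A + 1)) * (I (Fin.last k)).card := by
    refine le_trans ((Nat.cast_le (α := ℝ)).2 hcard) ?_
    rw [Nat.cast_add]
    refine add_le_add d1 (le_trans ((Nat.cast_le (α := ℝ)).2 d3) ?_)
    rw [Nat.cast_mul]
    exact mul_le_mul_of_nonneg_right d2 (Nat.cast_nonneg _)
  refine d4.trans ?_
  have e5 : (P1 / L ^ (A + 1)) * (I (Fin.last k)).card = P / L ^ (A + 1) := by rw [hprod]; ring
  have e6 := hhalf P hP0
  rw [e5]
  linarith

end Pool.Agent.T2h83.TH
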