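import Pool.Agent.T2h83.TH.Main
import Pool.Agent.W93.LV2

/-!
Project TH (helper83): the values of a quadratic polynomial at the elements of a residue class.
-/

set_option autoImplicit false

namespace Pool.Agent.T2h83.TH

open Finset

/-- the solutions of `a b = c d` -/
noncomputable def P4 (V : ℕ) : Finset (ℤ × ℤ × ℤ × ℤ) :=
  ((Icc (-(V : ℤ)) V) ×ˢ (Icc (-(V : ℤ)) V) ×ˢ (Icc (-(V : ℤ)) V) ×ˢ (Icc (-(V : ℤ)) V)).filter
    (fun x => x.1 * x.2.1 = x.2.2.1 * x.2.2.2)

lemma tau_mul (a b : ℕ) : (a * b).divisors.card ≤ a.divisors.card * b.divisors.card := by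
  rw [Nat.divisors_mul]
  exact card_mul_le

lemma card_I (V : ℕ) : (Icc (-(V : ℤ)) V).card = 2 * V + 1 := by
  rw [Int.card_Icc]
  omega

/-- the sum of the numbers of divisors -/
lemma tau_sum (V : ℕ) : ∑ a ∈ (Icc (-(V : ℤ)) V).erase 0, (a.natAbs.divisors.card : ℝ) ≤ 2 * (V * (1 + Real.log V) ^ 3) := by
  have h1 := Pool.Agent.W93.LV.tau_sq V
  have h2 : ∑ n ∈ Icc 1 V, (n.divisors.card : ℝ) ≤ V * (1 + Real.log V) ^ 3 := by
    refine le_trans (sum_le_sum fun n hn => ?_) h1
    rw [mem_Icc] at hn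
    have : (1 : ℝ) ≤ n.divisors.card := by
      have : 0 < n.divisors.card := card_pos.2 ⟨1, Nat.one_mem_divisors.2 (by omega)⟩
      exact_mod_cast this
    nlinarith
  have h3 : ∀ a ∈ (Icc (-(V : ℤ)) V).erase 0, a.natAbs ∈ Icc 1 V := by
    intro a ha
    rw [mem_erase, mem_Icc] at ha
    rw [mem_Icc]
    omega
  rw [← sum_fiberwise_of_maps_to h3]
  calc ∑ n ∈ Icc 1 V, ∑ a ∈ ((Icc (-(V : ℤ)) V).erase 0).filter (fun a => a.natAbs = n), (a.natAbs.divisors.card : ℝ)
      ≤ ∑ n ∈ Icc 1 V, 2 * (n.divisors.card : ℝ) := by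
        refine sum_le_sum fun n _ => ?_
        have e1 : ∀ a ∈ ((Icc (-(V : ℤ)) V).erase 0).filter (fun a => a.natAbs = n), (a.natAbs.divisors.card : ℝ) = n.divisors.card := by
          intro a ha
          rw [mem_filter] at ha
          rw [ha.2]
        rw [sum_congr rfl e1, sum_const, nsmul_eq_mul]
        apply mul_le_mul_of_nonneg_right _ (Nat.cast_nonneg _)
        have e2 : ((Icc (-(V : ℤ)) V).erase 0).filter (fun a => a.natAbs = n) ⊆ {(n : ℤ), -(n : ℤ)} := by
          intro a ha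
          rw [mem_filter] at ha
          rw [mem_insert, mem_singleton]
          omega
        have e3 := (card_le_card e2).trans card_le_two
        exact_mod_cast e3
    _ = 2 * ∑ n ∈ Icc 1 V, (n.divisors.card : ℝ) := by rw [mul_sum]
    _ ≤ _ := by linarith

lemma P4_card (V : ℕ) (hV : 1 ≤ V) : ((P4 V).card : ℝ) ≤ 44 * (V ^ 2 * (1 + Real.log V) ^ 6) := by
  classical
  obtain ⟨I, hI⟩ : ∃ I, I = Icc (-(V : ℤ)) V := ⟨_, rfl⟩
  have hcI : I.card = 2 * V + 1 := by rw [hI]; exact card_I V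
  have hsub : P4 V ⊆ (P4 V).filter (fun x => x.1 * x.2.1 = 0) ∪ (P4 V).filter (fun x => x.1 * x.2.1 ≠ 0) := by
    intro x hx
    rw [mem_union, mem_filter, mem_filter]
    tauto
  -- the zero part
  have hA : ((P4 V).filter (fun x => x.1 * x.2.1 = 0)).card ≤ (2 * (2 * V + 1)) ^ 2 := by
    obtain ⟨A0, hA0⟩ : ∃ A0 : Finset (ℤ × ℤ), A0 = ({(0 : ℤ)} ×ˢ I) ∪ (I ×ˢ {(0 : ℤ)}) := ⟨_, rfl⟩
    have hA0c : A0.card ≤ 2 * (2 * V + 1) := by
      rw [hA0]
      refine (card_union_le _ _).trans ?_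
      rw [card_product, card_product, card_singleton, hcI]
      omega
    have hmem : ∀ a b : ℤ, a ∈ I → b ∈ I → a * b = 0 → (a, b) ∈ A0 := by
      intro a b ha hb hab
      rw [hA0, mem_union, mem_product, mem_product]
      rcases mul_eq_zero.1 hab with h | h
      · left
        exact ⟨by rw [h]; exact mem_singleton_self _, hb⟩
      · right
        exact ⟨ha, by rw [h]; exact mem_singleton_self _⟩
    calc ((P4 V).filter (fun x => x.1 * x.2.1 = 0)).card ≤ (A0 ×ˢ A0).card := by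
          apply card_le_card_of_injOn (fun x => ((x.1, x.2.1), (x.2.2.1, x.2.2.2)))
          · intro x hx
            rw [mem_coe, mem_filter] at hx
            unfold P4 at hx
            rw [mem_filter, mem_product, mem_product, mem_product, ← hI] at hx
            rw [mem_coe, mem_product]
            exact ⟨hmem _ _ hx.1.1.1 hx.1.1.2.1 hx.2, hmem _ _ hx.1.1.2.2.1 hx.1.1.2.2.2 (by rw [← hx.1.2]; exact hx.2)⟩
          · rintro ⟨a, b, c, d⟩ _ ⟨a', b', c', d'⟩ _ h
            simp only [Prod.mk.injEq] at h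
            simp only [Prod.mk.injEq]
            tauto
      _ = A0.card ^ 2 := by rw [card_product, sq]
      _ ≤ _ := Nat.pow_le_pow_left hA0c 2
  -- the other part
  obtain ⟨I0, hI0⟩ : ∃ I0, I0 = I.erase 0 := ⟨_, rfl⟩
  have hB : (((P4 V).filter (fun x => x.1 * x.2.1 ≠ 0)).card : ℝ) ≤ 8 * (V * (1 + Real.log V) ^ 3) ^ 2 := by
    have hmaps : ∀ x ∈ (P4 V).filter (fun x => x.1 * x.2.1 ≠ 0), (x.1, x.2.1) ∈ I0 ×ˢ I0 := by
      intro x hx
      rw [mem_filter] at hx
      unfold P4 at hx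
      rw [mem_filter, mem_product, mem_product, mem_product, ← hI] at hx
      rw [mem_product, hI0, mem_erase, mem_erase]
      exact ⟨⟨left_ne_zero_of_mul hx.2, hx.1.1.1⟩, right_ne_zero_of_mul hx.2, hx.1.1.2.1⟩
    have hfib := card_eq_sum_card_fiberwise (f := fun x : ℤ × ℤ × ℤ × ℤ => (x.1, x.2.1)) (t := I0 ×ˢ I0)
      (s := (P4 V).filter (fun x => x.1 * x.2.1 ≠ 0)) (fun x hx => by
        rw [mem_coe] at hx ⊢
        exact hmaps x hx)
    have hone : ∀ p ∈ I0 ×ˢ I0, (((P4 V).filter (fun x => x.1 * x.2.1 ≠ 0)).filter (fun x => (x.1, x.2.1) = p)).card ≤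
        2 * (p.1.natAbs.divisors.card * p.2.natAbs.divisors.card) := by
      rintro ⟨a, b⟩ _
      by_cases hab : a * b = 0
      · have : ((P4 V).filter (fun x => x.1 * x.2.1 ≠ 0)).filter (fun x => (x.1, x.2.1) = (a, b)) = ∅ := by
          apply eq_empty_of_forall_notMem
          intro x hx
          rw [mem_filter, mem_filter] at hx
          simp only [Prod.mk.injEq] at hx
          exact hx.1.2 (by rw [hx.2.1, hx.2.2]; exact hab)
        rw [this, card_empty]
        exact Nat.zero_le _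
      obtain ⟨Dv, hDv⟩ : ∃ Dv : Finset ℤ, Dv = ((a * b).natAbs.divisors.image (fun n : ℕ => (n : ℤ))) ∪
          ((a * b).natAbs.divisors.image (fun n : ℕ => -(n : ℤ))) := ⟨_, rfl⟩
      have hDvc : Dv.card ≤ 2 * (a.natAbs.divisors.card * b.natAbs.divisors.card) := by
        rw [hDv]
        refine (card_union_le _ _).trans ?_
        have e1 : ((a * b).natAbs.divisors.image (fun n : ℕ => (n : ℤ))).card ≤ (a * b).natAbs.divisors.card := card_image_le
        have e2 : ((a * b).natAbs.divisors.image (fun n : ℕ => -(n : ℤ))).card ≤ (a * b).natAbs.divisors.card := card_image_le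
        have e3 := tau_mul a.natAbs b.natAbs
        rw [← Int.natAbs_mul] at e3
        omega
      refine le_trans ?_ hDvc
      apply card_le_card_of_injOn (fun x => x.2.2.1)
      · rintro ⟨a', b', c, d⟩ hx
        rw [mem_coe, mem_filter, mem_filter] at hx
        simp only [Prod.mk.injEq] at hx
        obtain ⟨⟨h1, h2⟩, h3, h4⟩ := hx
        subst h3 h4
        unfold P4 at h1
        rw [mem_filter] at h1
        have h5 : a' * b' = c * d := h1.2
        have h6 : c.natAbs ∈ (a' * b').natAbs.divisors := by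
          rw [Nat.mem_divisors]
          exact ⟨Int.natAbs_dvd_natAbs.2 ⟨d, h5⟩, by rw [Ne, Int.natAbs_eq_zero]; exact hab⟩
        rw [mem_coe, hDv, mem_union, mem_image, mem_image]
        rcases Int.natAbs_eq c with h7 | h7
        · left
          exact ⟨c.natAbs, h6, h7.symm⟩
        · right
          exact ⟨c.natAbs, h6, h7.symm⟩
      · rintro ⟨a₁, b₁, c₁, d₁⟩ h1 ⟨a₂, b₂, c₂, d₂⟩ h2 h3
        rw [mem_coe, mem_filter, mem_filter] at h1 h2
        simp only [Prod.mk.injEq] at h1 h2 h3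
        unfold P4 at h1 h2
        rw [mem_filter] at h1 h2
        obtain ⟨⟨⟨-, g1⟩, g2⟩, g3, g4⟩ := h1
        obtain ⟨⟨⟨-, k1⟩, k2⟩, k3, k4⟩ := h2
        simp only at g1 k1 g2 k2
        subst g3 g4 k3 k4 h3
        have h7 : c₁ ≠ 0 := by
          intro h
          rw [h, zero_mul] at g1
          exact g2 g1
        have h8 : d₁ = d₂ := mul_left_cancel₀ h7 (g1.symm.trans k1)
        rw [h8]
    have hsum : (((P4 V).filter (fun x => x.1 * x.2.1 ≠ 0)).card : ℝ) ≤
        ∑ p ∈ I0 ×ˢ I0, 2 * ((p.1.natAbs.divisors.card : ℝ) * (p.2.natAbs.divisors.card : ℝ)) := by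
      rw [hfib]
      push_cast
      refine sum_le_sum fun p hp => ?_
      exact_mod_cast hone p hp
    refine hsum.trans ?_
    rw [sum_product, hI0, hI]
    have e1 : ∀ a ∈ (Icc (-(V : ℤ)) V).erase 0, ∑ b ∈ (Icc (-(V : ℤ)) V).erase 0,
        2 * ((a.natAbs.divisors.card : ℝ) * (b.natAbs.divisors.card : ℝ)) =
        2 * ((a.natAbs.divisors.card : ℝ) * ∑ b ∈ (Icc (-(V : ℤ)) V).erase 0, (b.natAbs.divisors.card : ℝ)) := by
      intro a _
      rw [mul_sum, mul_sum]
    rw [sum_congr rfl e1, ← mul_sum, ← sum_mul]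
    have e2 := tau_sum V
    have e3 : 0 ≤ ∑ a ∈ (Icc (-(V : ℤ)) V).erase 0, (a.natAbs.divisors.card : ℝ) := sum_nonneg fun _ _ => Nat.cast_nonneg _
    calc 2 * ((∑ a ∈ (Icc (-(V : ℤ)) V).erase 0, (a.natAbs.divisors.card : ℝ)) *
          ∑ a ∈ (Icc (-(V : ℤ)) V).erase 0, (a.natAbs.divisors.card : ℝ))
        ≤ 2 * ((2 * (V * (1 + Real.log V) ^ 3)) * (2 * (V * (1 + Real.log V) ^ 3))) := by
          apply mul_le_mul_of_nonneg_left _ (by norm_num)
          exact mul_le_mul e2 e2 e3 (e3.trans e2)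
      _ = _ := by ring
  have h1 := (card_le_card hsub).trans (card_union_le _ _)
  have h2 : ((P4 V).card : ℝ) ≤ ((2 * (2 * V + 1)) ^ 2 : ℕ) + 8 * (V * (1 + Real.log V) ^ 3) ^ 2 := by
    have h3 : ((P4 V).card : ℝ) ≤ (((P4 V).filter (fun x => x.1 * x.2.1 = 0)).card : ℝ) +
        (((P4 V).filter (fun x => x.1 * x.2.1 ≠ 0)).card : ℝ) := by exact_mod_cast h1
    have h4 : (((P4 V).filter (fun x => x.1 * x.2.1 = 0)).card : ℝ) ≤ (((2 * (2 * V + 1)) ^ 2 : ℕ) : ℝ) := by
      exact_mod_cast hA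
    linarith
  refine h2.trans ?_
  have hVr : (1 : ℝ) ≤ V := by exact_mod_cast hV
  have hl : 1 ≤ (1 + Real.log V) ^ 6 := one_le_pow₀ (by have := Real.log_natCast_nonneg V; linarith)
  push_cast
  have h5 : (2 * (2 * (V : ℝ) + 1)) ^ 2 ≤ 36 * V ^ 2 := by nlinarith
  have h6 : (V : ℝ) ^ 2 ≤ V ^ 2 * (1 + Real.log V) ^ 6 := le_mul_of_one_le_right (by positivity) hl
  have h7 : 8 * ((V : ℝ) * (1 + Real.log V) ^ 3) ^ 2 = 8 * (V ^ 2 * (1 + Real.log V) ^ 6) := by ring
  rw [h7]
  linarith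

/-- the sum and the sum of the squares -/
def phi (v : Fin 3 → ℕ) : ℤ × ℤ := (∑ i, (v i : ℤ), ∑ i, (v i : ℤ) ^ 2)

/-- triples of numbers below `V` -/
def Pi3 (V : ℕ) : Finset (Fin 3 → ℕ) := Fintype.piFinset (fun _ : Fin 3 => range V)

/-- the mean value of Vinogradov for the squares and three variables -/
lemma J3_card (V : ℕ) (hV : 1 ≤ V) : ((((Pi3 V) ×ˢ (Pi3 V)).filter (fun x => phi x.1 = phi x.2)).card : ℝ) ≤
    44 * (V ^ 3 * (1 + Real.log V) ^ 6) := by
  classical
  have h1 : (((Pi3 V) ×ˢ (Pi3 V)).filter (fun x => phi x.1 = phi x.2)).card ≤ ((P4 V) ×ˢ (range V)).card := by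
    apply card_le_card_of_injOn (fun x : (Fin 3 → ℕ) × (Fin 3 → ℕ) =>
      (((x.2 2 : ℤ) - x.1 0, (x.2 2 : ℤ) - x.1 1, (x.1 2 : ℤ) - x.2 0, (x.1 2 : ℤ) - x.2 1), x.2 2))
    · rintro ⟨v, w⟩ hx
      rw [mem_coe, mem_filter, mem_product] at hx
      obtain ⟨⟨hv, hw⟩, h⟩ := hx
      unfold Pi3 at hv hw
      rw [Fintype.mem_piFinset] at hv hw
      simp only at hv hw h
      unfold phi at h
      rw [Prod.mk.injEq] at h
      simp only [Fin.sum_univ_three] at h
      have v0 := mem_range.1 (hv 0)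
      have v1 := mem_range.1 (hv 1)
      have v2 := mem_range.1 (hv 2)
      have w0 := mem_range.1 (hw 0)
      have w1 := mem_range.1 (hw 1)
      have w2 := mem_range.1 (hw 2)
      rw [mem_coe, mem_product]
      refine ⟨?_, hw 2⟩
      unfold P4
      rw [mem_filter, mem_product, mem_product, mem_product]
      simp only [mem_Icc]
      refine ⟨⟨⟨by omega, by omega⟩, ⟨by omega, by omega⟩, ⟨by omega, by omega⟩, by omega, by omega⟩, ?_⟩
      obtain ⟨e1, e2⟩ := h
      have e3 : 2 * (((w 2 : ℤ) - v 0) * ((w 2 : ℤ) - v 1)) = 2 * (((v 2 : ℤ) - w 0) * ((v 2 : ℤ) - w 1)) := by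
        linear_combination ((v 0 : ℤ) + v 1 - w 2 + (w 0 + w 1 - v 2)) * e1 - e2
      linarith
    · rintro ⟨v, w⟩ hx ⟨v', w'⟩ hx' heq
      rw [mem_coe, mem_filter] at hx hx'
      have h := hx.2
      have h' := hx'.2
      simp only at h h' heq
      unfold phi at h h'
      rw [Prod.mk.injEq] at h h'
      simp only [Fin.sum_univ_three] at h h'
      simp only [Prod.mk.injEq] at heq
      obtain ⟨⟨e1, e2, e3, e4⟩, e5⟩ := heq
      have a1 := h.1
      have a2 := h'.1
      rw [Prod.mk.injEq]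
      constructor
      · funext i
        fin_cases i
        · simp only [Fin.zero_eta]
          omega
        · simp only [Fin.mk_one]
          omega
        · simp only [Fin.reduceFinMk]
          omega
      · funext i
        fin_cases i
        · simp only [Fin.zero_eta]
          omega
        · simp only [Fin.mk_one]
          omega
        · simp only [Fin.reduceFinMk]
          omega
  rw [card_product, card_range] at h1
  have h2 : ((((Pi3 V) ×ˢ (Pi3 V)).filter (fun x => phi x.1 = phi x.2)).card : ℝ) ≤ (P4 V).card * V := by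
    exact_mod_cast h1
  refine h2.trans ?_
  calc ((P4 V).card : ℝ) * V ≤ (44 * (V ^ 2 * (1 + Real.log V) ^ 6)) * V :=
        mul_le_mul_of_nonneg_right (P4_card V hV) (Nat.cast_nonneg _)
    _ = _ := by ring

/-- translates have not more solutions -/
lemma shift_le {α : Type*} (P : Finset α) (φ : α → ℤ × ℤ) (l : ℤ × ℤ) :
    ((P ×ˢ P).filter (fun x => φ x.1 = φ x.2 + l)).card ≤ ((P ×ˢ P).filter (fun x => φ x.1 = φ x.2)).card := by
  classical
  obtain ⟨r, hr⟩ : ∃ r : ℤ × ℤ → ℕ, r = fun u => (P.filter (fun v => φ v = u)).card := ⟨_, rfl⟩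
  obtain ⟨U, hU⟩ : ∃ U, U = P.image φ := ⟨_, rfl⟩
  have hfib : ∀ m : ℤ × ℤ, ((P ×ˢ P).filter (fun x => φ x.1 = φ x.2 + m)).card = ∑ u ∈ U, r u * r (u - m) := by
    intro m
    rw [card_eq_sum_card_fiberwise (f := fun x : α × α => φ x.1) (t := U)]
    · refine sum_congr rfl fun u _ => ?_
      rw [hr]
      simp only
      rw [← card_product]
      congr 1
      ext x
      simp only [mem_filter, mem_product]
      constructor
      · rintro ⟨⟨⟨a1, a2⟩, a3⟩, a4⟩
        exact ⟨⟨a1, a4⟩, a2, by rw [← a4, a3]; simp⟩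
      · rintro ⟨⟨a1, a4⟩, a2, a3⟩
        exact ⟨⟨⟨a1, a2⟩, by rw [a4, a3]; simp⟩, a4⟩
    · intro x hx
      rw [mem_coe, mem_filter, mem_product] at hx
      rw [mem_coe, hU, mem_image]
      exact ⟨x.1, hx.1.1, rfl⟩
  have h0 := hfib 0
  simp only [add_zero, sub_zero] at h0
  rw [h0, hfib l]
  have h1 : ∑ u ∈ U, r (u - l) * r (u - l) ≤ ∑ u ∈ U, r u * r u := by
    have e1 : ∑ u ∈ U, r (u - l) * r (u - l) = ∑ u ∈ U.image (fun u => u - l), r u * r u := by
      rw [sum_image]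
      intro a _ b _ hab
      exact sub_left_injective hab
    rw [e1]
    have e2 : ∑ u ∈ U.image (fun u => u - l), r u * r u = ∑ u ∈ (U.image (fun u => u - l)).filter (fun u => u ∈ U), r u * r u := by
      rw [sum_filter]
      refine sum_congr rfl fun u _ => ?_
      split_ifs with h
      · rfl
      · have : r u = 0 := by
          rw [hr]
          simp only
          rw [card_eq_zero]
          apply eq_empty_of_forall_notMem
          intro v hv
          rw [mem_filter] at hv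
          apply h
          rw [hU, mem_image]
          exact ⟨v, hv.1, hv.2⟩
        rw [this, mul_zero]
    rw [e2]
    apply sum_le_sum_of_subset
    intro u hu
    exact (mem_filter.1 hu).2
  have h2 : ∀ u ∈ U, 2 * (r u * r (u - l)) ≤ r u * r u + r (u - l) * r (u - l) := by
    intro u _
    have := two_mul_le_add_sq (r u) (r (u - l))
    rw [sq, sq] at this
    linarith
  have h3 : 2 * ∑ u ∈ U, r u * r (u - l) ≤ ∑ u ∈ U, r u * r u + ∑ u ∈ U, r (u - l) * r (u - l) := by
    rw [mul_sum, ← sum_add_distrib]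
    exact sum_le_sum h2
  omega

/-- few solutions for the values of a quadratic polynomial in a residue class -/
lemma energy_quad {a b c q ρ V g : ℕ} (ha : 1 ≤ a) (hq : 1 ≤ q) (hV : 1 ≤ V) (hg : Nat.gcd (2 * a * ρ + b) q ≤ g) :
    (energy 3 ((range V).image (fun v => a * (ρ + q * v) ^ 2 + b * (ρ + q * v) + c)) : ℝ) ≤
      (6 * V * g / q + 1) * (44 * (V ^ 3 * (1 + Real.log V) ^ 6)) := by
  classical
  obtain ⟨K, hK⟩ : ∃ K : ℕ → ℕ, K = fun v => a * (ρ + q * v) ^ 2 + b * (ρ + q * v) + c := ⟨_, rfl⟩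
  rw [← hK]
  obtain ⟨d, hd⟩ : ∃ d, d = Nat.gcd (2 * a * ρ + b) q := ⟨_, rfl⟩
  have hd1 : 1 ≤ d := by rw [hd]; exact Nat.gcd_pos_of_pos_right _ (by omega)
  obtain ⟨q', hq'⟩ : ∃ q', q' = q / d := ⟨_, rfl⟩
  have hdq : q = d * q' := by
    rw [hq']
    exact (Nat.mul_div_cancel' (by rw [hd]; exact Nat.gcd_dvd_right _ _)).symm
  have hq'1 : 1 ≤ q' := by
    rcases Nat.eq_zero_or_pos q' with h | h
    · rw [h, mul_zero] at hdq
      omega
    · exact h
  -- the set of the solutions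
  obtain ⟨X, hX⟩ : ∃ X, X = ((Pi3 V) ×ˢ (Pi3 V)).filter (fun x => ∑ i, K (x.1 i) = ∑ i, K (x.2 i)) := ⟨_, rfl⟩
  have hEX : energy 3 ((range V).image K) ≤ X.card := by
    unfold energy
    have h1 : ((Fintype.piFinset (fun _ : Fin 3 => (range V).image K)) ×ˢ (Fintype.piFinset (fun _ : Fin 3 => (range V).image K))).filter
        (fun x => ∑ i, x.1 i = ∑ i, x.2 i) ⊆ X.image (fun x => ((fun i => K (x.1 i)), (fun i => K (x.2 i)))) := by
      rintro ⟨v, w⟩ hx
      rw [mem_filter, mem_product, Fintype.mem_piFinset, Fintype.mem_piFinset] at hx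
      obtain ⟨⟨h2, h3⟩, h4⟩ := hx
      simp only [mem_image] at h2 h3 h4
      choose f hf1 hf2 using h2
      choose f' hf1' hf2' using h3
      rw [mem_image]
      refine ⟨(f, f'), ?_, ?_⟩
      · rw [hX, mem_filter, mem_product]
        unfold Pi3
        rw [Fintype.mem_piFinset, Fintype.mem_piFinset]
        refine ⟨⟨hf1, hf1'⟩, ?_⟩
        simp only [hf2, hf2']
        exact h4
      · rw [Prod.mk.injEq]
        exact ⟨funext hf2, funext hf2'⟩
    exact (card_le_card h1).trans card_image_le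
  -- the possible differences of the sums
  obtain ⟨Lam, hLam⟩ : ∃ Lam : Finset ℤ, Lam = (Icc (-((3 * V / q' : ℕ) : ℤ)) ((3 * V / q' : ℕ) : ℤ)).image (fun m => (q' : ℤ) * m) := ⟨_, rfl⟩
  have hLamc : Lam.card ≤ 2 * (3 * V / q') + 1 := by
    rw [hLam]
    refine card_image_le.trans ?_
    rw [card_I]
  have hrel : ∀ x ∈ X, (a : ℤ) * q * ((phi x.1).2 - (phi x.2).2) = -(2 * a * ρ + b) * ((phi x.1).1 - (phi x.2).1) := by
    rintro ⟨v, w⟩ hx
    rw [hX, mem_filter] at hx
    have h1 := hx.2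
    simp only [hK, Fin.sum_univ_three] at h1
    unfold phi
    simp only [Fin.sum_univ_three]
    have hq0 : (q : ℤ) ≠ 0 := by
      have : 0 < q := by omega
      exact_mod_cast this.ne'
    have h2 : (q : ℤ) * ((a : ℤ) * q * (((v 0 : ℤ) ^ 2 + (v 1) ^ 2 + (v 2) ^ 2) - ((w 0 : ℤ) ^ 2 + (w 1) ^ 2 + (w 2) ^ 2))) =
        q * (-(2 * a * ρ + b) * (((v 0 : ℤ) + v 1 + v 2) - ((w 0 : ℤ) + w 1 + w 2))) := by
      have h3 : (a : ℤ) * (ρ + q * v 0) ^ 2 + b * (ρ + q * v 0) + c + (a * (ρ + q * v 1) ^ 2 + b * (ρ + q * v 1) + c) +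
          (a * (ρ + q * v 2) ^ 2 + b * (ρ + q * v 2) + c) =
          a * (ρ + q * w 0) ^ 2 + b * (ρ + q * w 0) + c + (a * (ρ + q * w 1) ^ 2 + b * (ρ + q * w 1) + c) +
          (a * (ρ + q * w 2) ^ 2 + b * (ρ + q * w 2) + c) := by exact_mod_cast h1
      linear_combination h3
    exact mul_left_cancel₀ hq0 h2
  have hmaps : ∀ x ∈ X, (phi x.1).1 - (phi x.2).1 ∈ Lam := by
    rintro ⟨v, w⟩ hx
    have h1 := hrel _ hx
    simp only at h1 ⊢
    obtain ⟨D1, hD1⟩ : ∃ D1, D1 = (phi v).1 - (phi w).1 := ⟨_, rfl⟩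
    obtain ⟨D2, hD2⟩ : ∃ D2, D2 = (phi v).2 - (phi w).2 := ⟨_, rfl⟩
    rw [← hD1, ← hD2] at h1
    rw [← hD1]
    have hdvd : (q' : ℤ) ∣ D1 := by
      have h2 : (q : ℤ) ∣ ((2 * a * ρ + b : ℕ) : ℤ) * D1 := by
        refine ⟨-(a * D2), ?_⟩
        push_cast
        linear_combination h1
      obtain ⟨e, he⟩ : ∃ e, 2 * a * ρ + b = d * e := by
        have : d ∣ 2 * a * ρ + b := by rw [hd]; exact Nat.gcd_dvd_left _ _
        exact this
      have hcop : Nat.Coprime q' e := by
        have h3 : Nat.gcd (d * e) (d * q') = d := by rw [← he, ← hdq, ← hd]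
        rw [Nat.gcd_mul_left] at h3
        have h4 : Nat.gcd e q' = 1 := Nat.eq_of_mul_eq_mul_left (by omega : 0 < d) (by rw [h3, mul_one])
        rw [Nat.coprime_comm]
        exact h4
      rw [hdq, he] at h2
      push_cast at h2
      rw [mul_assoc] at h2
      have hd0 : (d : ℤ) ≠ 0 := by exact_mod_cast (by omega : d ≠ 0)
      have h3 := (mul_dvd_mul_iff_left hd0).1 h2
      exact (Int.isCoprime_iff_gcd_eq_one.2 (by simpa using hcop)).dvd_of_dvd_mul_left h3
    have hbd : |D1| ≤ 3 * V := by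
      rw [hX, mem_filter, mem_product] at hx
      obtain ⟨⟨hv, hw⟩, -⟩ := hx
      unfold Pi3 at hv hw
      rw [Fintype.mem_piFinset] at hv hw
      have v0 := mem_range.1 (hv 0)
      have v1 := mem_range.1 (hv 1)
      have v2 := mem_range.1 (hv 2)
      have w0 := mem_range.1 (hw 0)
      have w1 := mem_range.1 (hw 1)
      have w2 := mem_range.1 (hw 2)
      simp only at v0 v1 v2 w0 w1 w2
      rw [hD1]
      unfold phi
      simp only [Fin.sum_univ_three]
      rw [abs_le]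
      constructor <;> omega
    obtain ⟨m, hm⟩ := hdvd
    rw [hLam, mem_image]
    refine ⟨m, ?_, hm.symm⟩
    have h5 : m.natAbs ≤ 3 * V / q' := by
      rw [Nat.le_div_iff_mul_le (by omega)]
      have h6 : (D1.natAbs : ℤ) ≤ 3 * V := by rw [Int.natCast_natAbs]; exact hbd
      rw [hm, Int.natAbs_mul, Int.natAbs_natCast] at h6
      have h7 : q' * m.natAbs ≤ 3 * V := by exact_mod_cast h6
      linarith [mul_comm q' m.natAbs]
    rw [mem_Icc]
    omega
  have hXc : X.card ≤ (2 * (3 * V / q') + 1) * (((Pi3 V) ×ˢ (Pi3 V)).filter (fun x => phi x.1 = phi x.2)).card := by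
    rw [card_eq_sum_card_fiberwise (f := fun x : (Fin 3 → ℕ) × (Fin 3 → ℕ) => (phi x.1).1 - (phi x.2).1) (t := Lam)
      (fun x hx => by rw [mem_coe] at hx ⊢; exact hmaps x hx)]
    refine le_trans ?_ (Nat.mul_le_mul_right _ hLamc)
    rw [← smul_eq_mul, ← sum_const]
    refine sum_le_sum fun D1 _ => ?_
    refine le_trans (card_le_card ?_) (shift_le (Pi3 V) phi (D1, (-(2 * a * ρ + b) * D1) / (a * q)))
    intro x hx
    rw [mem_filter] at hx
    have h1 := hrel x hx.1
    rw [hx.2] at h1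
    have h2 := hx.1
    rw [hX, mem_filter] at h2
    rw [mem_filter]
    refine ⟨h2.1, ?_⟩
    have h3 : (-(2 * (a : ℤ) * ρ + b) * D1) / (a * q) = (phi x.1).2 - (phi x.2).2 := by
      rw [← h1]
      apply Int.mul_ediv_cancel_left
      have h4 : 0 < a * q := Nat.mul_pos (by omega) (by omega)
      have h5 : (0 : ℤ) < a * q := by exact_mod_cast h4
      exact h5.ne'
    rw [h3, ← hx.2]
    ext
    · simp
    · simp
  have hJ := J3_card V hV
  have hfin : (energy 3 ((range V).image K) : ℝ) ≤ ((2 * (3 * V / q') + 1 : ℕ) : ℝ) *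
      ((((Pi3 V) ×ˢ (Pi3 V)).filter (fun x => phi x.1 = phi x.2)).card : ℝ) := by
    exact_mod_cast hEX.trans hXc
  refine hfin.trans ?_
  have hq0 : (0 : ℝ) < q := by exact_mod_cast hq
  have hq'0 : (0 : ℝ) < q' := by exact_mod_cast hq'1
  have h1 : ((2 * (3 * V / q') + 1 : ℕ) : ℝ) ≤ 6 * V * g / q + 1 := by
    push_cast
    have h2 : ((3 * V / q' : ℕ) : ℝ) ≤ (3 * V : ℝ) / q' := by
      have := Nat.cast_div_le (α := ℝ) (m := 3 * V) (n := q')
      push_cast at this
      exact this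
    have h3 : (3 * V : ℝ) / q' ≤ 3 * V * g / q := by
      rw [div_le_div_iff₀ hq'0 hq0]
      have h4 : (q : ℝ) ≤ g * q' := by
        have h5 : q ≤ g * q' := by
          rw [hdq]
          exact Nat.mul_le_mul_right _ (by rw [hd]; exact hg)
        exact_mod_cast h5
      have h6 : (0 : ℝ) ≤ 3 * V := by positivity
      calc (3 * V : ℝ) * q ≤ 3 * V * (g * q') := mul_le_mul_of_nonneg_left h4 h6
        _ = _ := by ring
    have h7 : (6 : ℝ) * V * g / q = 2 * (3 * V * g / q) := by ring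
    rw [h7]
    linarith
  have hl : 0 ≤ 1 + Real.log V := by have := Real.log_natCast_nonneg V; linarith
  exact mul_le_mul h1 hJ (Nat.cast_nonneg _) (by positivity)

end Pool.Agent.T2h83.TH
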