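import Pool.Agent.T2h83.TH.Form

/-!
Project TH (helper83): the difference of the von Mangoldt function and of the sieve model, for arbitrary sets of shifts in
all the residue classes of almost all moduli, with arbitrary bounded weights.
-/

set_option autoImplicit false

namespace Pool.Agent.T2h83.TH

open Finset
open Pool.Agent.T2h83.AM
open Pool.Agent.R460.GS
open Pool.Agent.R460.GH
open Pool.Agent.H373R2.T7 (lamz Vz pz ev_L')
open Pool.Agent.Y883.T3 (lsh)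
open Pool.Agent.Y883.GJ

/-- **arbitrary sets of shifts**, all classes of almost all moduli, arbitrary weights -/
theorem thin_univ (C A U t T : ℕ) (ht : 1 ≤ t) : ∃ B : ℕ, ∀ E : ℕ, ∃ N₀ : ℕ, ∀ N : ℕ, N₀ ≤ N →
    ∀ z : ℕ, Real.log N ^ B ≤ z → (z : ℝ) ≤ Real.log N ^ E → ∀ Q : ℕ, (Q : ℝ) * Real.log N ^ B ≤ N →
    ∃ S : Finset ℕ, (S.card : ℝ) ≤ Q / Real.log N ^ A ∧ ∀ q ∈ Ioc Q (2 * Q), q ∉ S →
      ∀ c : ℕ, 1 ≤ c → c ≤ C → ∀ (r : ℕ) (I : Finset ℕ), (∀ s ∈ I, s ≤ C * N) → (∀ s ∈ I, s % q = r % q) →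
      (energy t I : ℝ) ≤ (I.card : ℝ) ^ (2 * t) * q * Real.log N ^ T / N → ∀ g : ℕ → ℂ, (∀ n, ‖g n‖ ≤ 1) →
      ∑ s ∈ I, ‖∑ n ∈ Icc 1 N, g n *
        ((ArithmeticFunction.vonMangoldt (c * n + s) - lamz z (c * n + s) : ℝ) : ℂ)‖ ≤
        (I.card : ℝ) * (N / Real.log N ^ U) := by
  classical
  obtain ⟨U₀, hU₀⟩ : ∃ U₀, U₀ = t * (U + 1) + A + T + 9 * t + 6 := ⟨_, rfl⟩
  obtain ⟨B, hB⟩ := err_A (2 * U₀) U₀
  obtain ⟨K, hK⟩ : ∃ K, K = 2 * C + 1 := ⟨_, rfl⟩
  refine ⟨B + 2 * U₀ + 12, fun E => ?_⟩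
  obtain ⟨N₁, h1⟩ := hB E
  obtain ⟨N₃, h3⟩ := ev_L' (2 ^ (B + 2 * U₀ + 11) + Real.log K + 2 * K + 100 + K ^ (t + 1) * 2 ^ (8 * t))
  refine ⟨N₁ + N₃ + 3, fun N hN z hz1 hz2 Q hQ => ?_⟩
  have hN1 : 1 ≤ N := by omega
  have hN0 : (0 : ℝ) < N := by exact_mod_cast hN1
  have hK1 : (1 : ℝ) ≤ K := by exact_mod_cast (by omega : 1 ≤ K)
  have hK0 : (0 : ℝ) < K := by linarith
  obtain ⟨M, hM⟩ : ∃ M, M = K * N := ⟨_, rfl⟩
  have hMN : N ≤ M := by rw [hM]; exact Nat.le_mul_of_pos_left _ (by omega)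
  have hM0 : (0 : ℝ) < M := by exact_mod_cast (by omega : 0 < M)
  have hMr : (M : ℝ) = K * N := by rw [hM]; push_cast; ring
  have hLM : Real.log M = Real.log K + Real.log N := by
    rw [hMr, Real.log_mul hK0.ne' hN0.ne']
  have hlK : 0 ≤ Real.log K := Real.log_natCast_nonneg K
  have hLbig := h3 N (by omega)
  have hcast : (2 : ℝ) ^ (B + 2 * U₀ + 11) ≥ 1 := one_le_pow₀ (by norm_num)
  have hKt : (0 : ℝ) ≤ K ^ (t + 1) * 2 ^ (8 * t) := by positivity
  have hbdFF := fun (r' : ℕ) (hPar : Par U₀ M z r') (hl : 2 ≤ Real.log M) (hl8 : 8 ≤ Real.log M) => bd_sq (bd_FF hPar hl) hl8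
  obtain ⟨LM, hLMd⟩ : ∃ LM, LM = Real.log (M : ℝ) := ⟨_, rfl⟩
  obtain ⟨L, hLd⟩ : ∃ L, L = Real.log (N : ℝ) := ⟨_, rfl⟩
  have h1M := h1 M (by omega) z
  rw [← hLMd] at h1M
  rw [← hLMd] at hbdFF
  rw [← hLMd, ← hLd] at hLM
  rw [← hLd] at hLbig hz1 hz2 hQ ⊢
  have hL100 : 100 ≤ L := by linarith
  have hL0 : 0 < L := by linarith
  have hL1 : 1 ≤ L := by linarith
  have hLK : 2 * K ≤ L := by linarith
  have hLKt : K ^ (t + 1) * 2 ^ (8 * t) ≤ L := by linarith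
  have hLLM : L ≤ LM := by linarith
  have hLM0 : 0 < LM := by linarith
  have hLM2 : LM ≤ 2 * L := by linarith
  have hpow2 : ∀ j, j ≤ B + 2 * U₀ + 11 → LM ^ j ≤ L ^ (j + 1) := by
    intro j hj
    calc LM ^ j ≤ (2 * L) ^ j := pow_le_pow_left₀ hLM0.le hLM2 j
      _ = 2 ^ j * L ^ j := by rw [mul_pow]
      _ ≤ L * L ^ j := by
          apply mul_le_mul_of_nonneg_right _ (by positivity)
          have : (2 : ℝ) ^ j ≤ 2 ^ (B + 2 * U₀ + 11) := pow_le_pow_right₀ (by norm_num) hj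
          linarith
      _ = L ^ (j + 1) := by ring
  obtain ⟨r', hPar, hsum, hms⟩ := h1M ((hpow2 B (by omega)).trans ((pow_le_pow_right₀ hL1 (by omega)).trans hz1))
    (hz2.trans (pow_le_pow_left₀ hL0.le hLLM E))
  have hbd := hbdFF r' hPar (by linarith) (by linarith)
  have hcB := hms Q (by
    calc (Q : ℝ) * LM ^ (2 * U₀ + 11) ≤ Q * L ^ (2 * U₀ + 11 + 1) :=
          mul_le_mul_of_nonneg_left (hpow2 _ (by omega)) (Nat.cast_nonneg _)
      _ ≤ Q * L ^ (B + 2 * U₀ + 12) := by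
          apply mul_le_mul_of_nonneg_left (pow_le_pow_right₀ hL1 (by omega)) (Nat.cast_nonneg _)
      _ ≤ N := hQ
      _ ≤ M := by exact_mod_cast hMN)
  refine ⟨badq M (FF z r') Q ((M : ℝ) ^ 2 / LM ^ (2 * U₀)), ?_, ?_⟩
  · refine hcB.trans ?_
    apply div_le_div_of_nonneg_left (Nat.cast_nonneg _) (by positivity)
    calc L ^ A ≤ L ^ (2 * U₀) := pow_le_pow_right₀ hL1 (by omega)
      _ ≤ LM ^ (2 * U₀) := pow_le_pow_left₀ hL0.le hLLM _
  intro q hqQ hqS c hc hcC r I hIC hIr hE g hg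
  have hq1 : 1 ≤ q := by rw [mem_Ioc] at hqQ; omega
  have : NeZero q := ⟨by omega⟩
  have hq0 : (0 : ℝ) < q := by exact_mod_cast hq1
  have hgoodq : ∀ β : ℝ, ∑ t ∈ range q, ‖sm M (FF z r') (β + t / q)‖ ^ 2 ≤ (M : ℝ) ^ 2 / LM ^ (2 * U₀) := by
    intro β
    by_contra hcon
    rw [not_le] at hcon
    apply hqS
    unfold badq
    rw [mem_filter]
    exact ⟨hqQ, β, hcon⟩
  obtain ⟨J, hJ⟩ : ∃ J : ℝ, J = (I.card : ℝ) := ⟨_, rfl⟩
  rw [← hJ] at hE ⊢
  have hJ0 : (0 : ℝ) ≤ J := by rw [hJ]; exact Nat.cast_nonneg _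
  have hcMr : ∀ s ∈ I, c * N + s ≤ M := by
    intro s hs
    have q1 : c * N ≤ C * N := Nat.mul_le_mul_right _ hcC
    have q2 : K * N = C * N + C * N + N := by rw [hK]; ring
    have q3 := hIC s hs
    omega
  have e1 := thin_form (c := c) (N := N) (M := M) (q := q) ht hc I r hcMr hIr (FF z r') _ hgoodq g hg
  -- the sum with `FF`
  have e1' : ∑ s ∈ I, ‖∑ n ∈ Icc 1 N, g n * FF z r' (c * n + s)‖ ≤ J * (N / L ^ U / 2) := by
    have hX0 : 0 ≤ ∑ s ∈ I, ‖∑ n ∈ Icc 1 N, g n * FF z r' (c * n + s)‖ := sum_nonneg fun _ _ => norm_nonneg _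
    have hB : (∑ m ∈ Icc 1 M, ‖FF z r' m‖ ^ 2) ^ (t - 1) ≤ (K * N * (2 * L) ^ 8) ^ (t - 1) := by
      apply pow_le_pow_left₀ (sum_nonneg fun _ _ => by positivity)
      refine hbd.trans ?_
      rw [hMr]
      apply mul_le_mul_of_nonneg_left _ (by positivity)
      exact pow_le_pow_left₀ hLM0.le hLM2 8
    have hfin : (∑ s ∈ I, ‖∑ n ∈ Icc 1 N, g n * FF z r' (c * n + s)‖) ^ (2 * t) ≤ (J * (N / L ^ U / 2)) ^ (2 * t) := by
      refine e1.trans ?_
      calc (N : ℝ) ^ t * (∑ m ∈ Icc 1 M, ‖FF z r' m‖ ^ 2) ^ (t - 1) * ((M : ℝ) ^ 2 / LM ^ (2 * U₀)) * energy t I / q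
          ≤ (N : ℝ) ^ t * (K * N * (2 * L) ^ 8) ^ (t - 1) * ((M : ℝ) ^ 2 / LM ^ (2 * U₀)) * (J ^ (2 * t) * q * L ^ T / N) / q := by
            gcongr
        _ ≤ (N : ℝ) ^ t * (K * N * (2 * L) ^ 8) ^ (t - 1) * ((K * N) ^ 2 / L ^ (2 * U₀)) * (J ^ (2 * t) * q * L ^ T / N) / q := by
            rw [hMr]
            gcongr
        _ = J ^ (2 * t) * (N : ℝ) ^ (2 * t) * (K ^ (t + 1) * 2 ^ (8 * (t - 1))) * (L ^ (8 * (t - 1) + T) / L ^ (2 * U₀)) := by
            obtain ⟨t', rfl⟩ : ∃ t', t = t' + 1 := ⟨t - 1, by omega⟩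
            rw [Nat.add_sub_cancel]
            have n1 : (N : ℝ) ^ (2 * (t' + 1)) = (N : ℝ) ^ (t' + 1) * (N : ℝ) ^ t' * N := by
              rw [← pow_add, ← pow_succ]
              congr 1
              ring
            have n2 : (L : ℝ) ^ (8 * t' + T) = (L ^ 8) ^ t' * L ^ T := by rw [pow_add, pow_mul]
            have n3 : (2 : ℝ) ^ (8 * t') = (2 ^ 8) ^ t' := by rw [pow_mul]
            have n4 : (K : ℝ) ^ (t' + 1 + 1) = K ^ t' * K ^ 2 := by rw [← pow_add]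
            rw [n1, n2, n3, n4, mul_pow, mul_pow, mul_pow, mul_pow, mul_pow]
            field_simp
        _ ≤ J ^ (2 * t) * (N : ℝ) ^ (2 * t) * L * (L ^ (8 * (t - 1) + T) / L ^ (2 * U₀)) := by
            have k1 : K ^ (t + 1) * 2 ^ (8 * (t - 1)) ≤ L := by
              refine le_trans ?_ hLKt
              apply mul_le_mul_of_nonneg_left _ (by positivity)
              exact pow_le_pow_right₀ (by norm_num) (by omega)
            gcongr
        _ ≤ J ^ (2 * t) * (N : ℝ) ^ (2 * t) * (1 / (L ^ (2 * t * U) * L ^ (2 * t))) := by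
            have k2 : L * (L ^ (8 * (t - 1) + T) / L ^ (2 * U₀)) ≤ 1 / (L ^ (2 * t * U) * L ^ (2 * t)) := by
              rw [mul_div_assoc', div_le_div_iff₀ (by positivity) (by positivity), one_mul, ← pow_succ', ← pow_add, ← pow_add]
              apply pow_le_pow_right₀ hL1
              rw [hU₀]
              have : 8 * (t - 1) ≤ 8 * t := by omega
              nlinarith
            rw [mul_assoc (J ^ (2 * t) * (N : ℝ) ^ (2 * t)) L]
            exact mul_le_mul_of_nonneg_left k2 (by positivity)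
        _ ≤ J ^ (2 * t) * (N : ℝ) ^ (2 * t) * (1 / (L ^ (2 * t * U) * 2 ^ (2 * t))) := by
            apply mul_le_mul_of_nonneg_left _ (by positivity)
            apply div_le_div_of_nonneg_left (by norm_num) (by positivity)
            apply mul_le_mul_of_nonneg_left _ (by positivity)
            exact pow_le_pow_left₀ (by norm_num) (by linarith) _
        _ = (J * (N / L ^ U / 2)) ^ (2 * t) := by
            have n5 : L ^ (2 * t * U) = (L ^ U) ^ (2 * t) := by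
              rw [← pow_mul]
              congr 1
              ring
            rw [n5, mul_pow, div_pow, div_pow]
            field_simp
    exact le_of_pow_le_pow_left₀ (by omega) (by positivity) hfin
  have e3 : ∀ s ∈ I, ‖∑ n ∈ Icc 1 N, g n *
      ((ArithmeticFunction.vonMangoldt (c * n + s) - lamz z (c * n + s) : ℝ) : ℂ)‖ ≤
      ‖∑ n ∈ Icc 1 N, g n * FF z r' (c * n + s)‖ + M / LM ^ U₀ := by
    intro s hs
    have e4 : ∑ n ∈ Icc 1 N, g n *
        ((ArithmeticFunction.vonMangoldt (c * n + s) - lamz z (c * n + s) : ℝ) : ℂ) =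
        ∑ n ∈ Icc 1 N, g n * FF z r' (c * n + s) -
        ∑ n ∈ Icc 1 N, g n * ((lamz z (c * n + s) - lsh z r' (c * n + s) : ℝ) : ℂ) := by
      rw [← sum_sub_distrib]
      refine sum_congr rfl fun n _ => ?_
      unfold FF
      push_cast
      ring
    rw [e4]
    refine (norm_sub_le _ _).trans (add_le_add le_rfl ?_)
    refine (norm_sum_le _ _).trans ?_
    calc ∑ n ∈ Icc 1 N, ‖g n * ((lamz z (c * n + s) - lsh z r' (c * n + s) : ℝ) : ℂ)‖
        ≤ ∑ n ∈ Icc 1 N, |lamz z (c * n + s) - lsh z r' (c * n + s)| := by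
          refine sum_le_sum fun n _ => ?_
          rw [norm_mul, Complex.norm_real, Real.norm_eq_abs]
          exact mul_le_of_le_one_left (abs_nonneg _) (hg n)
      _ = ∑ m ∈ (Icc 1 N).image (fun n => c * n + s), |lamz z m - lsh z r' m| := by
          rw [sum_image]
          intro a _ b _ hab
          have h5 : c * a = c * b := by
            simp only at hab
            omega
          exact Nat.eq_of_mul_eq_mul_left (by omega) h5
      _ ≤ ∑ m ∈ Icc 1 M, |lamz z m - lsh z r' m| := by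
          apply sum_le_sum_of_subset_of_nonneg _ (fun _ _ _ => abs_nonneg _)
          intro m hm
          rw [mem_image] at hm
          obtain ⟨n, hn, rfl⟩ := hm
          rw [mem_Icc] at hn ⊢
          have e5 : c * n ≤ c * N := Nat.mul_le_mul_left _ hn.2
          have e6 : 1 ≤ c * n := Nat.mul_pos (by omega) (by omega)
          have e7 := hcMr s hs
          constructor <;> omega
      _ ≤ M / LM ^ U₀ := hsum
  refine (sum_le_sum e3).trans ?_
  rw [sum_add_distrib, sum_const, nsmul_eq_mul, ← hJ]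
  have e5 : (M : ℝ) / LM ^ U₀ ≤ N / L ^ U / 2 := by
    have hUU : U + 1 ≤ U₀ := by
      rw [hU₀]
      nlinarith
    have q1 : L ^ (U + 1) ≤ LM ^ U₀ := (pow_le_pow_right₀ hL1 hUU).trans (pow_le_pow_left₀ hL0.le hLLM _)
    rw [div_div, div_le_div_iff₀ (by positivity) (by positivity), hMr]
    calc (K : ℝ) * N * (L ^ U * 2) = N * ((2 * K) * L ^ U) := by ring
      _ ≤ N * (L * L ^ U) := by gcongr
      _ = N * L ^ (U + 1) := by ring
      _ ≤ N * LM ^ U₀ := by gcongr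
  calc _ ≤ J * (N / L ^ U / 2) + J * (N / L ^ U / 2) := add_le_add e1' (mul_le_mul_of_nonneg_left e5 hJ0)
    _ = J * (N / L ^ U) := by ring

end Pool.Agent.T2h83.TH
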